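import Pool.Agent.V8H17.AP.Defs

/-!
Tree-like refutations have small rank.
-/

set_option linter.unusedSectionVars false

namespace Pool.Agent.V8H17.AP

open Finset Relation

variable {p : ℕ} {α : Type}

theorem IsTreeRefutation.rank {F : Set (Finset (α × Bool))} {c : ℕ} {T : ℕ}
    {Γ : Fin T → Finset (Fm p α)} (h : IsTreeRefutation F c Γ) :
    IsRefutation F c (Nat.log 2 (univ.filter (fun i => 2 ≤ (Γ i).card)).card) Γ := by
  classical
  obtain ⟨h1, P, hP, h2⟩ := h
  set R : Fin T → Fin T → Prop := fun j i => 2 ≤ (Γ j).card ∧ j ∈ P i ∧ j < i with hR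
  have hRU : Relator.RightUnique R := by
    intro a b c hab hac
    exact hP a hab.1 b c hab.2.1 hac.2.1
  have hle : ∀ a b, ReflTransGen R a b → a ≤ b := by
    intro a b hab
    induction hab with
    | refl => exact le_rfl
    | tail _ hbc ih => exact ih.trans hbc.2.2.le
  let anc : Fin T → Finset (Fin T) := fun i =>
    univ.filter (fun k => 2 ≤ (Γ k).card ∧ ReflTransGen R k i)
  have memanc : ∀ i k, k ∈ anc i ↔ 2 ≤ (Γ k).card ∧ ReflTransGen R k i := by
    intro i k
    simp [anc]
  have hsub : ∀ i j, R j i → anc j ⊆ anc i := by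
    intro i j hj k hk
    rw [memanc] at hk ⊢
    exact ⟨hk.1, hk.2.tail hj⟩
  have hdisj : ∀ i j j', R j i → R j' i → j ≠ j' → Disjoint (anc j) (anc j') := by
    have key : ∀ i j j', R j i → R j' i → j ≠ j' → ¬ ReflTransGen R j j' := by
      intro i j j' hj hj' hne hcon
      rcases ReflTransGen.cases_head hcon with h | ⟨l, hl, hlj⟩
      · exact hne h
      · have : l = i := hRU hl hj
        subst this
        exact absurd (hle _ _ hlj) (not_le.mpr hj'.2.2)
    intro i j j' hj hj' hne
    rw [Finset.disjoint_left]
    intro k hk hk'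
    rw [memanc] at hk hk'
    rcases ReflTransGen.total_of_right_unique hRU hk.2 hk'.2 with h | h
    · exact key i j j' hj hj' hne h
    · exact key i j' j hj' hj (Ne.symm hne) h
  let r : Fin T → ℕ := fun i => Nat.log 2 (anc i).card
  refine ⟨h1, P, fun i => if 2 ≤ (Γ i).card then Γ i else ∅, r, ?_, ?_, ?_⟩
  · intro i
    apply Nat.log_mono_right
    apply card_le_card
    intro k hk
    rw [memanc] at hk
    exact mem_filter.mpr ⟨mem_univ _, hk.1⟩
  · intro i
    by_cases hi : 2 ≤ (Γ i).card
    · simp only [if_pos hi]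
      exact ⟨subset_rfl, fun φ hφ _ _ h => absurd hφ h⟩
    · simp only [if_neg hi]
      refine ⟨empty_subset _, fun φ hφ χ hχ _ _ => ?_⟩
      exact Finset.card_le_one.mp (by omega) φ hφ χ hχ
  · intro i
    rcases h2 i with h3 | h3
    · exact Or.inl h3
    · refine Or.inr ⟨h3, ?_⟩
      have hlt := h3.2.1
      intro hΔ
      by_cases hi : 2 ≤ (Γ i).card
      · simp only [if_pos hi] at hΔ ⊢
        have hwide : ∀ j, (if 2 ≤ (Γ j).card then Γ j else ∅) ≠ ∅ → 2 ≤ (Γ j).card := by
          intro j hj
          by_contra hcon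
          rw [if_neg hcon] at hj
          exact hj rfl
        refine ⟨?_, ?_, ?_⟩
        · intro j hj hΔj
          exact Nat.log_mono_right (card_le_card (hsub i j ⟨hwide j hΔj, hj, hlt j hj⟩))
        · intro j _ _ _ _
          trivial
        · intro j hj j' hj' hΔj hΔj' _ _ hr hr'
          by_contra hne
          have hRj : R j i := ⟨hwide j hΔj, hj, hlt j hj⟩
          have hRj' : R j' i := ⟨hwide j' hΔj', hj', hlt j' hj'⟩
          have hd := hdisj i j j' hRj hRj' hne
          have hu : (anc j).card + (anc j').card ≤ (anc i).card := by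
            rw [← card_union_of_disjoint hd]
            exact card_le_card (union_subset (hsub i j hRj) (hsub i j' hRj'))
          have hj1 : (anc j).card ≠ 0 := by
            have : j ∈ anc j := (memanc j j).mpr ⟨hRj.1, ReflTransGen.refl⟩
            exact (card_pos.mpr ⟨j, this⟩).ne'
          have hj2 : (anc j').card ≠ 0 := by
            have : j' ∈ anc j' := (memanc j' j').mpr ⟨hRj'.1, ReflTransGen.refl⟩
            exact (card_pos.mpr ⟨j', this⟩).ne'
          have e1 : 2 ^ r i ≤ (anc j).card := by
            rw [← hr]; exact Nat.pow_log_le_self 2 hj1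
          have e2 : 2 ^ r i ≤ (anc j').card := by
            rw [← hr']; exact Nat.pow_log_le_self 2 hj2
          have e3 : (anc i).card < 2 ^ (r i + 1) := Nat.lt_pow_succ_log_self (by norm_num) _
          rw [pow_succ] at e3
          omega
      · simp only [if_neg hi] at hΔ
        exact absurd rfl hΔ

end Pool.Agent.V8H17.AP
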