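import Pool.Agent.V8H17.AP.Sub
import Pool.Agent.Helper600R2.Cnt.Eval

/-!
Truth values of formulas at a partial partition; local soundness.
-/

set_option linter.unusedSectionVars false

namespace Pool.Agent.V8H17.AP

open Finset Pool.Agent.Helper600R2.Cnt

section trees

variable {N : ℕ} {q k : ℕ} {ρ : PS N}

/-- evaluate the trees of all formulas of a list -/
noncomputable def seqTr (q k : ℕ) (ρ : PS N) : List (MF N) → DT N (PS N)
  | [] => .leaf ρ
  | ψ :: l => (tr q k ρ ψ).bind (fun _ => seqTr q k ρ l)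

lemma seqTr_ht (l : List (MF N)) : (seqTr q k ρ l).HtLe (l.length * k) := by
  induction l with
  | nil => trivial
  | cons ψ l ih =>
    rw [seqTr, List.length_cons, Nat.succ_mul, Nat.add_comm]
    exact DT.HtLe.bind (fun _ => ih) (tr_ht _)

lemma seqTr_some {y : PS N} (l : List (MF N)) :
    ((seqTr q k ρ l).eval y).isNone = false → ∀ ψ ∈ l, ∃ σ, (tr q k ρ ψ).eval y = some σ := by
  induction l with
  | nil => intro _ ψ hψ; simp at hψ
  | cons ψ l ih =>
    intro h χ hχ
    rw [seqTr, DT.eval_bind] at h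
    cases h1 : (tr q k ρ ψ).eval y with
    | none => rw [h1] at h; simp at h
    | some σ =>
      rw [h1, Option.bind_some] at h
      rcases List.mem_cons.mp hχ with rfl | hχ
      · exact ⟨σ, h1⟩
      · exact ih h χ hχ

/-- the value found by a tree -/
lemma tv_spec {y : PS N} (hy : IsPP q y) (hρy : ρ ⊆ y) {ψ : MF N} (hT : HasT q k ψ ρ k)
    {σ : PS N} (h : (tr q k ρ ψ).eval y = some σ) :
    ρ ⊆ σ ∧ σ ⊆ y ∧ σ.card ≤ ρ.card + k ∧ W q k ψ (tv q k ρ y ψ) σ := by
  obtain ⟨a1, a2, a3, a4⟩ := tr_rep hT y hy hρy σ h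
  refine ⟨a1, a2, a3, ?_⟩
  cases hv : tv q k ρ y ψ
  · rcases a4 with h1 | h1
    · have : tv q k ρ y ψ = true := tv_iff.mpr ⟨σ, h, h1⟩
      rw [this] at hv
      exact absurd hv (by simp)
    · exact h1
  · obtain ⟨τ, hτ, hW⟩ := tv_iff.mp hv
    rw [h, Option.some.injEq] at hτ
    subst hτ
    exact hW

lemma W_lits {t : ℕ} {x : Fin t → Bool} {ψs : Fin t → MF N} {i : Fin t} {π : PS N} :
    W q k (lits x ψs i) true π ↔ W q k (ψs i) (!(x i)) π := by
  unfold lits
  cases hx : x i
  · simp
  · simp [W]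

lemma check_fn {y : PS N} (hy : IsPP q y) (hρy : ρ ⊆ y) {t : ℕ}
    {F : (Fin t → Bool) → Bool} {ψs : Fin t → MF N}
    (hroom : q * (ρ.card + (t + 2) * k + k * (2 + univ.sup (fun j => (ψs j).dep))) ≤ N)
    (hT : HasT q k (dnf t F ψs) ρ k) (hTs : ∀ j, HasT q k (ψs j) ρ k)
    (h1 : ∃ σ, (tr q k ρ (dnf t F ψs)).eval y = some σ)
    (h2 : ∀ j, ∃ σ, (tr q k ρ (ψs j)).eval y = some σ) :
    tv q k ρ y (dnf t F ψs) = F (fun j => tv q k ρ y (ψs j)) := by
  classical
  obtain ⟨σ0, hσ0⟩ := h1
  choose σ hσ using h2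
  obtain ⟨a1, a2, a3, a4⟩ := tv_spec hy hρy hT hσ0
  have hs := fun j => tv_spec hy hρy (hTs j) (hσ j)
  set as : Fin t → Bool := fun j => tv q k ρ y (ψs j) with has
  set S : PS N := σ0 ∪ univ.biUnion σ with hS
  have hSy : S ⊆ y := by
    refine union_subset a2 ?_
    intro B hB
    rw [mem_biUnion] at hB
    obtain ⟨j, _, hj⟩ := hB
    exact (hs j).2.1 hj
  have hSPP : IsPP q S := hy.mono hSy
  have hσS : ∀ j, σ j ⊆ S := fun j =>
    (subset_biUnion_of_mem σ (mem_univ j)).trans subset_union_right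
  have hScard : S.card ≤ ρ.card + (t + 1) * k := by
    have e1 : S ⊆ ρ ∪ ((σ0 \ ρ) ∪ univ.biUnion (fun j => σ j \ ρ)) := by
      intro B hB
      rw [hS] at hB
      simp only [mem_union, mem_biUnion, mem_univ, true_and, mem_sdiff] at hB ⊢
      by_cases hBρ : B ∈ ρ
      · exact Or.inl hBρ
      · rcases hB with hB | ⟨j, hj⟩
        · exact Or.inr (Or.inl ⟨hB, hBρ⟩)
        · exact Or.inr (Or.inr ⟨j, hj, hBρ⟩)
    have e2 : (σ0 \ ρ).card ≤ k := by
      have : (σ0 \ ρ).card + ρ.card = σ0.card := card_sdiff_add_card_eq_card a1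
      omega
    have e3 : (univ.biUnion (fun j => σ j \ ρ)).card ≤ t * k := by
      refine card_biUnion_le.trans ?_
      calc ∑ j : Fin t, (σ j \ ρ).card ≤ ∑ _j : Fin t, k := by
            refine Finset.sum_le_sum (fun j _ => ?_)
            have : (σ j \ ρ).card + ρ.card = (σ j).card :=
              card_sdiff_add_card_eq_card (hs j).1
            have := (hs j).2.2.1
            omega
        _ = t * k := by simp
    have e4 := card_le_card e1
    have e5 := card_union_le ρ ((σ0 \ ρ) ∪ univ.biUnion (fun j => σ j \ ρ))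
    have e6 := card_union_le (σ0 \ ρ) (univ.biUnion (fun j => σ j \ ρ))
    have e7 : (t + 1) * k = t * k + k := by ring
    omega
  have hdS := dnf_dep t F ψs
  have hmul : k * (dnf t F ψs).dep ≤ k * (2 + univ.sup (fun j => (ψs j).dep)) :=
    Nat.mul_le_mul_left k hdS
  have e8 : (t + 2) * k = (t + 1) * k + k := by ring
  have hroomS : q * (S.card + k * (2 + univ.sup (fun j => (ψs j).dep))) ≤ N :=
    (Nat.mul_le_mul_left q (by omega)).trans hroom
  have hsup : ∀ j, (ψs j).dep ≤ univ.sup (fun j => (ψs j).dep) := fun j =>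
    Finset.le_sup (f := fun j => (ψs j).dep) (mem_univ j)
  have hWs : ∀ j, ∀ π, S ⊆ π → IsPP q π → W q k (ψs j) (as j) π := fun j π hπ hπ' =>
    W_mono _ (hs j).2.2.2 ((hσS j).trans hπ) hπ'
  cases hv : tv q k ρ y (dnf t F ψs)
  · rw [hv] at a4
    symm
    by_contra hne
    have hF : F as = true := by simpa using hne
    unfold dnf at a4
    rw [W_or_false] at a4
    have h3 := a4 S hSPP subset_union_left (by
      refine (Nat.mul_le_mul_left q ?_).trans hroomS
      apply Nat.add_le_add_left
      exact hmul) ((bits t).symm as)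
    simp only [Equiv.apply_symm_apply, if_pos hF] at h3
    apply h3
    show W q k (.or t (lits as ψs)) false S
    rw [W_or_false]
    intro π' g1 g2 g3 i hW
    rw [W_lits] at hW
    rw [or_lits_dep] at g3
    have hroomπ : q * (π'.card + k * (ψs i).dep) ≤ N := by
      refine (Nat.mul_le_mul_left q ?_).trans g3
      apply Nat.add_le_add_left
      apply Nat.mul_le_mul_left
      have := hsup i
      omega
    have hWi := hWs i π' g2 g1
    cases ha : as i
    · rw [ha] at hW hWi
      exact W_cons _ g1 hroomπ hW hWi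
    · rw [ha] at hW hWi
      exact W_cons _ g1 hroomπ hWi hW
  · rw [hv] at a4
    unfold dnf at a4
    rw [W_or_true] at a4
    obtain ⟨a, ha⟩ := a4
    by_cases hF : F (bits t a) = true
    · rw [if_pos hF] at ha
      have ha' : W q k (.or t (lits (bits t a) ψs)) false σ0 := ha
      rw [W_or_false] at ha'
      have h3 := ha' S hSPP subset_union_left (by
        refine (Nat.mul_le_mul_left q ?_).trans hroomS
        apply Nat.add_le_add_left
        apply Nat.mul_le_mul_left
        rw [or_lits_dep]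
        omega)
      have h4 : as = bits t a := by
        funext i
        have h5 := h3 i
        rw [W_lits] at h5
        have h6 := hWs i S subset_rfl hSPP
        cases hb : bits t a i
        · rw [hb] at h5
          cases hc : as i
          · rfl
          · rw [hc] at h6
            exact absurd h6 h5
        · rw [hb] at h5
          cases hc : as i
          · rw [hc] at h6
            exact absurd h6 h5
          · rfl
      rw [h4, hF]
    · rw [if_neg hF] at ha
      simp [W] at ha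

end trees

section vals

variable {p : ℕ} {α : Type} {N : ℕ} (blk : α → Finset (Fin N))

/-- replacing the maximal `md` subformulas by their values -/
noncomputable def rd (tvf : MF N → Bool) : Fm p α → MF N
  | .var a => .var (blk a)
  | .neg φ => .neg (rd tvf φ)
  | .or t φs => .or t (fun j => rd tvf (φs j))
  | .md i _ φs =>
      .cst (decide ((∑ j, if tvf (rd tvf (φs j)) = true then (1 : ZMod p) else 0) = i))
  | .fn t F φs => dnf t F (fun j => rd tvf (φs j))

/-- the valuation -/
noncomputable def VV (tvf : MF N → Bool) (φ : Fm p α) : Bool := tvf (rd blk tvf φ)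

variable {blk}

lemma VV_respMod {tvf : MF N → Bool} (h : ∀ b, tvf (.cst b) = b) :
    RespMod (VV (p := p) blk tvf) := by
  intro i t φs
  simp only [VV, rd, h]
  rfl

lemma rd_eq_subst {tvf : MF N → Bool} (h : ∀ b, tvf (.cst b) = b) (φ : Fm p α) :
    rd blk tvf φ = subst blk (VV blk tvf) φ := by
  induction φ with
  | var a => rfl
  | neg φ ih => simp only [rd, subst, ih]
  | or t φs ih =>
    simp only [rd, subst]
    congr 1
    funext j
    exact ih j
  | md i t φs _ =>
    simp only [subst, VV_respMod h i t φs]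
    rfl
  | fn t F φs ih =>
    simp only [rd, subst]
    congr 1
    funext j
    exact ih j

lemma rd_eq_mu {tvf : MF N → Bool} (h : ∀ b, tvf (.cst b) = b) (φ : Fm p α) :
    rd blk tvf φ = subst blk (mu (lV (VV blk tvf))) φ := by
  rw [rd_eq_subst h]
  apply subst_congr
  intro χ hχ
  exact (mu_lV (VV_respMod h) χ (tops_spec φ χ hχ).1).symm

variable (blk)

/-- the tree whose success guarantees that the outermost connective is respected -/
noncomputable def ckM (q k : ℕ) (ρ : PS N) (μ : Fm p α → Bool) : Fm p α → DT N (PS N)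
  | .var _ => .leaf ρ
  | .neg φ => ck q k ρ (.neg (subst blk μ φ))
  | .or t φs => ck q k ρ (.or t (fun j => subst blk μ (φs j)))
  | .md _ _ _ => .leaf ρ
  | .fn t F φs => seqTr q k ρ (dnf t F (fun j => subst blk μ (φs j)) ::
      List.ofFn (fun j => subst blk μ (φs j)))

lemma ckM_ht {q k : ℕ} {ρ : PS N} (μ : Fm p α → Bool) (φ : Fm p α) {s : ℕ}
    (hs : φ.FanLe s) : (ckM blk q k ρ μ φ).HtLe ((s + 2) * k) := by
  have h2 : k + k ≤ (s + 2) * k := by nlinarith
  cases φ with
  | var a => trivial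
  | neg φ => simp only [ckM]; exact (ck_ht _).mono h2
  | or t φs => simp only [ckM]; exact (ck_ht _).mono h2
  | md i t φs => trivial
  | fn t F φs =>
    simp only [Fm.FanLe] at hs
    refine (seqTr_ht _).mono ?_
    rw [List.length_cons, List.length_ofFn]
    exact Nat.mul_le_mul_right k (by omega)

lemma ckM_congr {q k : ℕ} {ρ : PS N} {μ μ' : Fm p α → Bool} (φ : Fm p α)
    (h : ∀ χ ∈ φ.tops, μ χ = μ' χ) : ckM blk q k ρ μ φ = ckM blk q k ρ μ' φ := by
  classical
  cases φ with
  | var a => rfl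
  | neg φ =>
    have h1 : subst blk μ φ = subst blk μ' φ := subst_congr blk φ h
    simp only [ckM, h1]
  | or t φs =>
    have h1 : ∀ j, subst blk μ (φs j) = subst blk μ' (φs j) := by
      intro j
      apply subst_congr
      intro χ hχ
      apply h
      simp only [Fm.tops, mem_biUnion, mem_univ, true_and]
      exact ⟨j, hχ⟩
    simp only [ckM, h1]
  | md i t φs => rfl
  | fn t F φs =>
    have h1 : ∀ j, subst blk μ (φs j) = subst blk μ' (φs j) := by
      intro j
      apply subst_congr
      intro χ hχ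
      apply h
      simp only [Fm.tops, mem_biUnion, mem_univ, true_and]
      exact ⟨j, hχ⟩
    simp only [ckM, h1]

variable {blk}

/-- local soundness -/
lemma resp_of_ck {q k : ℕ} {ρ y : PS N} (hy : IsPP q y) (hρy : ρ ⊆ y)
    {𝒰 : Finset (Fm p α)} (h𝒰 : ClosedFm 𝒰) {s d : ℕ} (hs : ∀ φ ∈ 𝒰, φ.FanLe s)
    (hd : ∀ φ ∈ 𝒰, φ.depth ≤ d) (hroom : q * (ρ.card + (s + 2) * k + k * (2 * d + 2)) ≤ N)
    (hT : ∀ φ ∈ 𝒰, HasT q k (rd blk (tv q k ρ y) φ) ρ k) (φ : Fm p α) (hφ : φ ∈ 𝒰)
    (h : ((ckM blk q k ρ (mu (lV (VV blk (tv q k ρ y)))) φ).eval y).isNone = false) :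
    RespAt (VV blk (tv q k ρ y)) φ := by
  have hc : ∀ b, tv q k ρ y (.cst b) = b := fun b => tv_cst y b
  have h2 : 2 * k ≤ (s + 2) * k := Nat.mul_le_mul_right k (by omega)
  have hdep : ∀ χ ∈ 𝒰, (rd blk (tv q k ρ y) χ).dep ≤ 2 * d := by
    intro χ hχ
    rw [rd_eq_subst hc]
    exact (subst_dep blk _ χ).trans (Nat.mul_le_mul_left 2 (hd χ hχ))
  cases φ with
  | var a => trivial
  | neg φ =>
    simp only [ckM, ← rd_eq_mu hc] at h
    have hφ' := h𝒰.neg φ hφ
    refine check_neg hy hρy ?_ (hT φ hφ') h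
    refine (Nat.mul_le_mul_left q ?_).trans hroom
    have := Nat.mul_le_mul_left k ((hdep φ hφ').trans (Nat.le_add_right _ 2))
    omega
  | or t φs =>
    simp only [ckM, ← rd_eq_mu hc] at h
    refine check_or hy hρy ?_ (hT _ hφ) (fun j => hT _ (h𝒰.or t φs hφ j)) h
    refine (Nat.mul_le_mul_left q ?_).trans hroom
    have h3 := hdep _ hφ
    rw [rd] at h3
    have := Nat.mul_le_mul_left k (h3.trans (Nat.le_add_right _ 2))
    omega
  | md i t φs => trivial
  | fn t F φs =>
    simp only [ckM, ← rd_eq_mu hc] at h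
    have hsucc := seqTr_some _ h
    have hfan := hs _ hφ
    simp only [Fm.FanLe] at hfan
    refine check_fn hy hρy ?_ (hT _ hφ) (fun j => hT _ (h𝒰.fn t F φs hφ j)) ?_ ?_
    · refine (Nat.mul_le_mul_left q ?_).trans hroom
      have h3 : univ.sup (fun j => (rd blk (tv q k ρ y) (φs j)).dep) ≤ 2 * d := by
        apply Finset.sup_le
        intro j _
        exact hdep _ (h𝒰.fn t F φs hφ j)
      have h4 : (t + 2) * k ≤ (s + 2) * k := Nat.mul_le_mul_right k (by omega)
      have h5 : k * (2 + univ.sup (fun j => (rd blk (tv q k ρ y) (φs j)).dep)) ≤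
          k * (2 * d + 2) := Nat.mul_le_mul_left k (by omega)
      omega
    · exact hsucc _ (List.mem_cons_self)
    · intro j
      exact hsucc _ (List.mem_cons_of_mem _ (List.mem_ofFn.mpr ⟨j, rfl⟩))

end vals

end Pool.Agent.V8H17.AP
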