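import Mathlib

/-!
Constant-depth Frege systems with `MOD p` connectives: formulas, their depth and subformulas,
the rank of the `MOD p` subformulas, local inferences between cedents, and refutations of CNF
formulas.
-/

set_option linter.unusedSectionVars false

namespace Pool.Agent.V8H17.AP

open Finset

/-- Formulas over the variables `α` with negation, disjunction of any finite number of formulas,
for each residue `i` modulo `p` the connective `md i` of any finite number of formulas, which
says that the number of its true arguments is `i` modulo `p`, and for every number `t` and every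
Boolean function `F` of `t` arguments a connective `fn t F`. -/
inductive Fm (p : ℕ) (α : Type) : Type
  | var (a : α) : Fm p α
  | neg (φ : Fm p α) : Fm p α
  | or (t : ℕ) (φs : Fin t → Fm p α) : Fm p α
  | md (i : ZMod p) (t : ℕ) (φs : Fin t → Fm p α) : Fm p α
  | fn (t : ℕ) (F : (Fin t → Bool) → Bool) (φs : Fin t → Fm p α) : Fm p α

variable {p : ℕ} {α : Type}

/-- Depth: the maximal nesting of connectives. -/
def Fm.depth : Fm p α → ℕ
  | .var _ => 0
  | .neg φ => φ.depth + 1
  | .or _ φs => univ.sup (fun j => (φs j).depth) + 1
  | .md _ _ φs => univ.sup (fun j => (φs j).depth) + 1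
  | .fn _ _ φs => univ.sup (fun j => (φs j).depth) + 1

open Classical in
/-- The set of all subformulas. -/
noncomputable def Fm.sub : Fm p α → Finset (Fm p α)
  | .var a => {.var a}
  | .neg φ => insert (.neg φ) φ.sub
  | .or t φs => insert (.or t φs) (univ.biUnion (fun j => (φs j).sub))
  | .md i t φs => insert (.md i t φs) (univ.biUnion (fun j => (φs j).sub))
  | .fn t F φs => insert (.fn t F φs) (univ.biUnion (fun j => (φs j).sub))

open Classical in
/-- The set of the maximal subformulas that begin with a `md` connective. -/
noncomputable def Fm.tops : Fm p α → Finset (Fm p α)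
  | .var _ => ∅
  | .neg φ => φ.tops
  | .or _ φs => univ.biUnion (fun j => (φs j).tops)
  | .md i t φs => {.md i t φs}
  | .fn _ _ φs => univ.biUnion (fun j => (φs j).tops)

/-- The linear form modulo `p` of a formula `md i t φs`: the formal sum of its arguments. -/
noncomputable def Fm.form : Fm p α → (Fm p α →₀ ZMod p)
  | .md _ t φs => ∑ j : Fin t, Finsupp.single (φs j) 1
  | _ => 0

/-- The rank of a formula: the dimension modulo `p` of the space spanned by the linear forms of
its maximal `md` subformulas. It is at most the number of these subformulas. -/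
noncomputable def Fm.rank (φ : Fm p α) : ℕ :=
  Module.finrank (ZMod p) (Submodule.span (ZMod p) (Fm.form '' (φ.tops : Set (Fm p α))))

/-- `φ` does not begin with a connective `fn t F` with `t > s`. -/
def Fm.FanLe (s : ℕ) : Fm p α → Prop
  | .fn t _ _ => t ≤ s
  | _ => True

/-- `V` assigns truth values to formulas so that all `md` connectives are respected. -/
def RespMod (V : Fm p α → Bool) : Prop :=
  ∀ i t (φs : Fin t → Fm p α),
    V (.md i t φs) = decide ((∑ j, if V (φs j) = true then (1 : ZMod p) else 0) = i)

/-- `V` respects the outermost connective of the given formula, if it is not `md`. -/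
def RespAt (V : Fm p α → Bool) : Fm p α → Prop
  | .var _ => True
  | .neg φ => V (.neg φ) = !(V φ)
  | .or t φs => V (.or t φs) = true ↔ ∃ j, V (φs j) = true
  | .md _ _ _ => True
  | .fn t F φs => V (.fn t F φs) = F (fun j => V (φs j))

open Classical in
/-- All subformulas of the formulas in the cedents `Γ i`. -/
noncomputable def allSub {T : ℕ} (Γ : Fin T → Finset (Fm p α)) : Finset (Fm p α) :=
  univ.biUnion (fun i => (Γ i).biUnion (fun φ => φ.sub))

/-- The cedent `Γ i` (a finite set of formulas, read as their disjunction) follows from the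
cedents `Γ j`, `j ∈ P`, by a `c`-local inference: `P` has at most `c` elements, all less than
`i`, and for every choice of one formula `σ j` in each of these cedents there are at most `c`
formulas `J` in `Γ i` and at most `c` subformulas `Q` of the cedents such that the implication
from the `σ j` to the disjunction of `J` only depends on the meaning of the `md` connectives and
of the outermost connectives of the formulas in `Q`. -/
def LocalInf (c : ℕ) {T : ℕ} (Γ : Fin T → Finset (Fm p α)) (P : Finset (Fin T)) (i : Fin T) :
    Prop :=
  P.card ≤ c ∧ (∀ j ∈ P, j < i) ∧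
    ∀ σ : Fin T → Fm p α, (∀ j ∈ P, σ j ∈ Γ j) →
      ∃ J ⊆ Γ i, J.card ≤ c ∧ ∃ Q ⊆ allSub Γ, Q.card ≤ c ∧
        ∀ V : Fm p α → Bool, RespMod V → (∀ χ ∈ Q, RespAt V χ) → (∀ j ∈ P, V (σ j) = true) →
          ∃ φ ∈ J, V φ = true

/-- The literal given by a variable and a sign. -/
def lit (l : α × Bool) : Fm p α := if l.2 = true then .var l.1 else .neg (.var l.1)

/-- The cedent `A` contains all literals of a clause of `F`, or a disjunction which contains all
literals of a clause of `F`. -/
def IsAxiom (F : Set (Finset (α × Bool))) (A : Finset (Fm p α)) : Prop :=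
  ∃ C ∈ F, (∀ l ∈ C, lit l ∈ A) ∨
    ∃ (t : ℕ) (φs : Fin t → Fm p α), Fm.or t φs ∈ A ∧ ∀ l ∈ C, ∃ j, φs j = lit l

/-- The rank condition for the inference of the cedent `Γ i` from the cedents `Γ j`, `j ∈ P`,
where `Δ i ⊆ Γ i` is the context and `r i` the rank of the cedent `Γ i`. There is no condition if
the context `Δ i` is empty. Otherwise the premises with nonempty contexts have rank at most
`r i`, and those whose contexts are not contained in `Δ i` have rank less than `r i`, with one
exception: if all formulas of `Γ i` belong to the context, then one of these premises may have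
rank `r i`. -/
def RankCond {T : ℕ} (Γ Δ : Fin T → Finset (Fm p α)) (P : Finset (Fin T)) (r : Fin T → ℕ)
    (i : Fin T) : Prop :=
  Δ i ≠ ∅ → (∀ j ∈ P, Δ j ≠ ∅ → r j ≤ r i) ∧
    (∀ j ∈ P, Δ j ≠ ∅ → ¬ Δ j ⊆ Δ i → r j = r i → Γ i = Δ i) ∧
    ∀ j ∈ P, ∀ j' ∈ P, Δ j ≠ ∅ → Δ j' ≠ ∅ → ¬ Δ j ⊆ Δ i → ¬ Δ j' ⊆ Δ i →
      r j = r i → r j' = r i → j = j'

/-- The cedents `Γ` form a refutation of the CNF formula `F` by `c`-local inferences, of rank at
most `B`: one of them is empty, and every one is an axiom or follows from earlier cedents by a
`c`-local inference; and every cedent `Γ i` has a context `Δ i`, which contains all of its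
formulas but at most one, and a rank `r i ≤ B` such that the rank condition holds. (If every
cedent has at most one formula, then one can take empty contexts and `r = 0`, so that the rank
condition is void.) -/
def IsRefutation (F : Set (Finset (α × Bool))) (c B : ℕ) {T : ℕ}
    (Γ : Fin T → Finset (Fm p α)) : Prop :=
  (∃ i, Γ i = ∅) ∧ ∃ (P : Fin T → Finset (Fin T)) (Δ : Fin T → Finset (Fm p α))
    (r : Fin T → ℕ), (∀ i, r i ≤ B) ∧
    (∀ i, Δ i ⊆ Γ i ∧ ∀ φ ∈ Γ i, ∀ χ ∈ Γ i, φ ∉ Δ i → χ ∉ Δ i → φ = χ) ∧
    ∀ i, IsAxiom F (Γ i) ∨ (LocalInf c Γ (P i) i ∧ RankCond Γ Δ (P i) r i)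

/-- The cedents `Γ` form a refutation of the CNF formula `F` by `c`-local inferences, which is
tree-like in the cedents with at least two formulas: each of these is used at most once as a
premise. (Cedents with at most one formula may be used any number of times.) -/
def IsTreeRefutation (F : Set (Finset (α × Bool))) (c : ℕ) {T : ℕ}
    (Γ : Fin T → Finset (Fm p α)) : Prop :=
  (∃ i, Γ i = ∅) ∧ ∃ P : Fin T → Finset (Fin T),
    (∀ j, 2 ≤ (Γ j).card → ∀ i i', j ∈ P i → j ∈ P i' → i = i') ∧
    ∀ i, IsAxiom F (Γ i) ∨ LocalInf c Γ (P i) i

end Pool.Agent.V8H17.AP
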