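import Pool.Agent.V8H17.AP.Check
import Pool.Agent.Helper600R2.Cnt.Deg

/-!
Degrees of the truth values of formulas.
-/

set_option linter.unusedSectionVars false

namespace Pool.Agent.V8H17.AP

open Finset Pool.Agent.Helper600R2 Pool.Agent.Helper600R2.Cnt

section ext

variable {p : ℕ} {α : Type} [Fact p.Prime]

/-- an extension of a functional on the span of the forms -/
noncomputable def extl (φ : Fm p α) (m : Module.Dual (ZMod p) φ.spc) :
    (Fm p α →₀ ZMod p) →ₗ[ZMod p] ZMod p := (LinearMap.exists_extend m).choose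

lemma extl_spec (φ : Fm p α) (m : Module.Dual (ZMod p) φ.spc) (v : φ.spc) :
    extl φ m v = m v := LinearMap.congr_fun (LinearMap.exists_extend m).choose_spec v

noncomputable instance dual_fintype (φ : Fm p α) : Fintype (Module.Dual (ZMod p) φ.spc) := by
  have : Finite (Module.Dual (ZMod p) φ.spc) := Module.finite_of_finite (ZMod p)
  exact Fintype.ofFinite _

/-- restriction of a functional -/
noncomputable def resl (φ : Fm p α) (l : (Fm p α →₀ ZMod p) →ₗ[ZMod p] ZMod p) :
    Module.Dual (ZMod p) φ.spc := l.comp φ.spc.subtype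

lemma mu_ext (φ : Fm p α) (l : (Fm p α →₀ ZMod p) →ₗ[ZMod p] ZMod p) :
    ∀ χ ∈ φ.tops, mu l χ = mu (extl φ (resl φ l)) χ := by
  apply mu_congr
  intro v hv
  exact (extl_spec φ (resl φ l) ⟨v, hv⟩).symm

end ext

section degree

variable {Vt E : Type} [Fintype Vt] [Fintype E] [DecidableEq Vt] [DecidableEq E]
  {hd tl : E → Vt} {q : ℕ} [NeZero q] {K : Type*} [Field K] {ψ : AddChar (ZMod q) K}
  {b : Vt → ZMod q} {N : ℕ} {ρ : PS N} {y : (E → ZMod q) → PS N}
  {p : ℕ} [Fact p.Prime] [CharP K p] {α : Type} {blk : α → Finset (Fin N)} {k : ℕ}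

lemma ind_J (g : (E → ZMod q) → ZMod p) (a : ℕ)
    (hg : (fun z => ZMod.castHom (dvd_refl p) K (g z)) ∈ J (ι := E) (α := ZMod q) K a)
    (c : ZMod p) :
    toK K (fun z => decide (g z = c)) ∈ J (ι := E) (α := ZMod q) K ((p - 1) * a) := by
  have hp : p.Prime := Fact.out
  let F : (E → ZMod q) → K := fun z => ZMod.castHom (dvd_refl p) K (g z)
  have hFz : ∀ z, F z = ZMod.castHom (dvd_refl p) K (g z) := fun _ => rfl
  have hF : F ∈ J (ι := E) (α := ZMod q) K a := hg
  have h1 : toK K (fun z => decide (g z = c)) =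
      1 - (F - fun _ => ZMod.castHom (dvd_refl p) K c) ^ (p - 1) := by
    funext z
    have h2 : (1 - (F - fun _ : E → ZMod q => ZMod.castHom (dvd_refl p) K c) ^ (p - 1)) z =
        ZMod.castHom (dvd_refl p) K (1 - (g z - c) ^ (p - 1)) := by
      simp only [Pi.sub_apply, Pi.one_apply, Pi.pow_apply, hFz, map_sub, map_one, map_pow]
    rw [h2]
    by_cases h : g z = c
    · rw [h, sub_self, zero_pow (by have := hp.two_le; omega), sub_zero, map_one]
      exact toK_true (decide_eq_true h)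
    · rw [ZMod.pow_card_sub_one_eq_one (sub_ne_zero.mpr h), sub_self, map_zero]
      exact toK_false (decide_eq_false h)
  rw [h1]
  exact Submodule.sub_mem _ (J_one _) (J_pow (Submodule.sub_mem _ hF (J_const _ _)) _)

/-- the valuation at `z` -/
noncomputable def Vz (q k : ℕ) (ρ : PS N) {p : ℕ} {α : Type} (blk : α → Finset (Fin N))
    (y : (E → ZMod q) → PS N) (z : E → ZMod q) (φ : Fm p α) : Bool :=
  VV blk (tv q k ρ (y z)) φ

lemma Vz_respMod (z : E → ZMod q) : RespMod (Vz (p := p) q k ρ blk y z) :=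
  VV_respMod (fun b => tv_cst (y z) b)

/-- the functional at `z` -/
noncomputable def lz (q k : ℕ) (ρ : PS N) {p : ℕ} {α : Type} (blk : α → Finset (Fin N))
    (y : (E → ZMod q) → PS N) (z : E → ZMod q) : (Fm p α →₀ ZMod p) →ₗ[ZMod p] ZMod p :=
  lV (Vz (p := p) (α := α) q k ρ blk y z)

lemma Vz_eq (φ : Fm p α) (z : E → ZMod q) :
    Vz q k ρ blk y z φ = tv q k ρ (y z)
      (subst blk (mu (extl φ (resl φ (lz q k ρ blk y z)))) φ) := by
  have h1 : subst blk (mu (extl φ (resl φ (lz q k ρ blk y z)))) φ =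
      subst blk (mu (lz q k ρ blk y z)) φ := by
    apply subst_congr
    intro χ hχ
    exact (mu_ext φ _ χ hχ).symm
  rw [h1]
  show tv q k ρ (y z) (rd blk (tv q k ρ (y z)) φ) = _
  rw [rd_eq_mu (fun b => tv_cst (y z) b)]
  rfl

/-- the forms are of low degree -/
lemma form_J (φ : Fm p α) (a : ℕ) (ha : ∀ i t (φs : Fin t → Fm p α), .md i t φs ∈ φ.tops →
      ∀ j, toK K (fun z => Vz q k ρ blk y z (φs j)) ∈ J (ι := E) (α := ZMod q) K a)
    (v : Fm p α →₀ ZMod p) (hv : v ∈ φ.spc) :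
    (fun z => ZMod.castHom (dvd_refl p) K (lz q k ρ blk y z v)) ∈
      J (ι := E) (α := ZMod q) K a := by
  induction hv using Submodule.span_induction with
  | mem v hv =>
    obtain ⟨χ, hχ, rfl⟩ := hv
    obtain ⟨⟨i, t, φs, rfl⟩, _⟩ := tops_spec φ χ hχ
    have h1 : (fun z => ZMod.castHom (dvd_refl p) K
        (lz q k ρ blk y z (Fm.form (.md i t φs)))) =
        ∑ j, toK K (fun z => Vz q k ρ blk y z (φs j)) := by
      funext z
      rw [lz, lV_form, map_sum, Finset.sum_apply]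
      refine Finset.sum_congr rfl (fun j _ => ?_)
      simp only [toK]
      split_ifs <;> simp
    rw [h1]
    exact Submodule.sum_mem _ (fun j _ => ha i t φs hχ j)
  | zero =>
    simp only [map_zero]
    exact Submodule.zero_mem _
  | add u v _ _ hu hv =>
    simp only [map_add]
    exact Submodule.add_mem _ hu hv
  | smul c v _ hv =>
    have h1 : (fun z => ZMod.castHom (dvd_refl p) K (lz q k ρ blk y z (c • v))) =
        (ZMod.castHom (dvd_refl p) K c) •
          (fun z => ZMod.castHom (dvd_refl p) K (lz q k ρ blk y z v)) := by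
      funext z
      simp only [map_smul, smul_eq_mul, map_mul, Pi.smul_apply]
    rw [h1]
    exact Submodule.smul_mem _ _ hv

/-- the indicator of the functional `m` -/
noncomputable def indD (K : Type*) [Field K] (q k : ℕ) (ρ : PS N) (blk : α → Finset (Fin N))
    (y : (E → ZMod q) → PS N) (φ : Fm p α) (m : Module.Dual (ZMod p) φ.spc) :
    (E → ZMod q) → K :=
  ∏ i, toK K (fun z => decide (lz q k ρ blk y z
    ((Module.finBasis (ZMod p) φ.spc i : φ.spc) : Fm p α →₀ ZMod p) =
      m (Module.finBasis (ZMod p) φ.spc i)))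

lemma indD_J (φ : Fm p α) (a : ℕ) (ha : ∀ i t (φs : Fin t → Fm p α), .md i t φs ∈ φ.tops →
      ∀ j, toK K (fun z => Vz q k ρ blk y z (φs j)) ∈ J (ι := E) (α := ZMod q) K a)
    (m : Module.Dual (ZMod p) φ.spc) :
    indD K q k ρ blk y φ m ∈ J (ι := E) (α := ZMod q) K (φ.rank * ((p - 1) * a)) := by
  have h1 := J_prod (K := K) (ι := E) (α := ZMod q)
    (univ : Finset (Fin (Module.finrank (ZMod p) φ.spc)))
    (fun i => toK K (fun z => decide (lz q k ρ blk y z
      ((Module.finBasis (ZMod p) φ.spc i : φ.spc) : Fm p α →₀ ZMod p) =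
      m (Module.finBasis (ZMod p) φ.spc i))))
    (fun _ => (p - 1) * a) (by
      intro i _
      apply ind_J
      exact form_J φ a ha _ (Module.finBasis (ZMod p) φ.spc i).2)
  rw [Finset.sum_const, card_univ, Fintype.card_fin, smul_eq_mul] at h1
  exact h1

lemma mixD (φ : Fm p α) (F : Module.Dual (ZMod p) φ.spc → (E → ZMod q) → K) :
    (fun z => F (resl φ (lz q k ρ blk y z)) z) =
      ∑ m, F m * indD K q k ρ blk y φ m := by
  classical
  funext z
  rw [Finset.sum_apply, Finset.sum_eq_single (resl φ (lz q k ρ blk y z))]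
  · rw [Pi.mul_apply, indD, Finset.prod_apply, Finset.prod_eq_one, mul_one]
    intro i _
    exact toK_true (decide_eq_true rfl)
  · intro m _ hne
    have h1 : ∃ i, lz q k ρ blk y z
        ((Module.finBasis (ZMod p) φ.spc i : φ.spc) : Fm p α →₀ ZMod p) ≠
        m (Module.finBasis (ZMod p) φ.spc i) := by
      by_contra hcon
      push Not at hcon
      apply hne
      refine (Module.finBasis (ZMod p) φ.spc).ext (fun i => ?_)
      exact (hcon i).symm
    obtain ⟨i, hi⟩ := h1
    rw [Pi.mul_apply, indD, Finset.prod_apply, Finset.prod_eq_zero (mem_univ i), mul_zero]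
    exact toK_false (decide_eq_false hi)
  · intro h
    exact absurd (mem_univ _) h

lemma mixD_J (φ : Fm p α) (F : Module.Dual (ZMod p) φ.spc → (E → ZMod q) → K) (a w : ℕ)
    (ha : ∀ i t (φs : Fin t → Fm p α), .md i t φs ∈ φ.tops →
      ∀ j, toK K (fun z => Vz q k ρ blk y z (φs j)) ∈ J (ι := E) (α := ZMod q) K a)
    (hF : ∀ m, F m ∈ J (ι := E) (α := ZMod q) K w) :
    (fun z => F (resl φ (lz q k ρ blk y z)) z) ∈
      J (ι := E) (α := ZMod q) K (w + φ.rank * ((p - 1) * a)) := by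
  rw [mixD]
  exact Submodule.sum_mem _ (fun m _ => J_mul (hF m) (indD_J φ a ha m))

lemma mixD_NF (hψ : ψ.IsPrimitive) (hqK : (q : K) ≠ 0) (φ : Fm p α)
    (F : Module.Dual (ZMod p) φ.spc → (E → ZMod q) → K) (a w : ℕ)
    (ha : ∀ i t (φs : Fin t → Fm p α), .md i t φs ∈ φ.tops →
      ∀ j, toK K (fun z => Vz q k ρ blk y z (φs j)) ∈ J (ι := E) (α := ZMod q) K a)
    (hF : ∀ m, F m ∈ NF hd tl ψ b w) :
    (fun z => F (resl φ (lz q k ρ blk y z)) z) ∈
      NF hd tl ψ b (w + φ.rank * ((p - 1) * a)) := by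
  rw [mixD]
  exact Submodule.sum_mem _ (fun m _ => NF_mul hd tl ψ (hF m)
    (J_le_DC ψ hψ hqK _ (indD_J φ a ha m)))

lemma tv_deg (hG : Good hd tl ψ b N ρ y) (χ : MF N) :
    toK K (fun z => tv q k ρ (y z) χ) ∈ J (ι := E) (α := ZMod q) K (4 * k) :=
  hG.tree_deg (fun σ => W q k χ true σ) (tr q k ρ χ) k (tr_ht χ)

theorem Vz_deg (hG : Good hd tl ψ b N ρ y) {𝒰 : Finset (Fm p α)} (h𝒰 : ClosedFm 𝒰) (G : ℕ)
    (hw : ∀ φ ∈ 𝒰, φ.rank ≤ G) : ∀ h : ℕ, ∀ φ ∈ 𝒰, φ.depth ≤ h →
      toK K (fun z => Vz q k ρ blk y z φ) ∈ J (ι := E) (α := ZMod q) K (AA k p G h) := by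
  classical
  have hp1 : 1 ≤ p := (Fact.out : p.Prime).one_le
  have main : ∀ (φ : Fm p α) (a : ℕ), (∀ i t (φs : Fin t → Fm p α), .md i t φs ∈ φ.tops →
      ∀ j, toK K (fun z => Vz q k ρ blk y z (φs j)) ∈ J (ι := E) (α := ZMod q) K a) →
      toK K (fun z => Vz q k ρ blk y z φ) ∈
        J (ι := E) (α := ZMod q) K (4 * k + φ.rank * ((p - 1) * a)) := by
    intro φ a ha
    have h1 := mixD_J (K := K) φ
      (fun m => toK K (fun z => tv q k ρ (y z) (subst blk (mu (extl φ m)) φ)))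
      a (4 * k) ha (fun m => tv_deg hG _)
    have h2 : toK K (fun z => Vz q k ρ blk y z φ) =
        fun z => (fun m : Module.Dual (ZMod p) φ.spc => toK K (fun z => tv q k ρ (y z)
          (subst blk (mu (extl φ m)) φ))) (resl φ (lz q k ρ blk y z)) z := by
      funext z
      simp only [toK, Vz_eq (p := p) φ z]
    rw [h2]
    exact h1
  intro h
  induction h with
  | zero =>
    intro φ hφ hd
    have h2 := main φ 0 (by
      intro i t φs hχ
      obtain ⟨_, h2⟩ := tops_spec φ _ hχ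
      simp only [Fm.depth] at h2
      omega)
    simpa [AA] using h2
  | succ h ih =>
    intro φ hφ hd
    have h2 := main φ (AA k p G h) (by
      intro i t φs hχ j
      have hmem := tops_mem h𝒰 φ hφ _ hχ
      obtain ⟨_, h2⟩ := tops_spec φ _ hχ
      apply ih _ (h𝒰.md i t φs hmem j)
      simp only [Fm.depth] at h2
      have := Finset.le_sup (f := fun j => (φs j).depth) (mem_univ j)
      omega)
    refine J_mono ?_ h2
    refine le_trans ?_ (AA_succ k p G h hp1).1
    exact Nat.add_le_add_left (Nat.mul_le_mul_right _ (hw φ hφ)) _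

lemma AA_mono {k p G h h' : ℕ} (hp : 1 ≤ p) (hh : h ≤ h') : AA k p G h ≤ AA k p G h' := by
  unfold AA
  apply Nat.mul_le_mul_left
  exact Nat.pow_le_pow_right (Nat.mul_pos (Nat.mul_pos (by norm_num) hp) (Nat.succ_pos G)) hh

/-- negligibility of the failure of a family of trees -/
lemma fail_null (hψ : ψ.IsPrimitive) (hqK : (q : K) ≠ 0) (hG : Good hd tl ψ b N ρ y)
    {𝒰 : Finset (Fm p α)} (h𝒰 : ClosedFm 𝒰) (G : ℕ)
    (hw : ∀ φ ∈ 𝒰, φ.rank ≤ G) (d : ℕ) (hd' : ∀ φ ∈ 𝒰, φ.depth ≤ d) (φ : Fm p α)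
    (hφ : φ ∈ 𝒰) (l : ℕ) (C : (Fm p α → Bool) → DT N (PS N)) (hC : ∀ μ, (C μ).HtLe l)
    (hCc : ∀ μ μ', (∀ χ ∈ φ.tops, μ χ = μ' χ) → C μ = C μ') :
    toK K (fun z => ((C (mu (lz q k ρ blk y z))).eval (y z)).isNone) ∈
      NF hd tl ψ b (4 * l + 8 + G * (p * AA k p G d)) ∧
    toK K (fun z => ((C (mu (lz q k ρ blk y z))).eval (y z)).isNone) ∈
      DC ψ (4 * l + 8 + G * (p * AA k p G d)) := by
  classical
  have ha : ∀ i t (φs : Fin t → Fm p α), .md i t φs ∈ φ.tops →
      ∀ j, toK K (fun z => Vz q k ρ blk y z (φs j)) ∈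
        J (ι := E) (α := ZMod q) K (AA k p G d) := by
    intro i t φs hχ j
    have hmem := h𝒰.md i t φs (tops_mem h𝒰 φ hφ _ hχ) j
    exact Vz_deg hG h𝒰 G hw d _ hmem (hd' _ hmem)
  have heq : toK K (fun z => ((C (mu (lz q k ρ blk y z))).eval (y z)).isNone) =
      fun z => (fun m : Module.Dual (ZMod p) φ.spc => toK K (fun z =>
        ((C (mu (extl φ m))).eval (y z)).isNone)) (resl φ (lz q k ρ blk y z)) z := by
    funext z
    exact congrArg (fun D : DT N (PS N) => if (D.eval (y z)).isNone = true then (1 : K) else 0)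
      (hCc _ _ (mu_ext φ (lz q k ρ blk y z)))
  have hcard : φ.rank * ((p - 1) * AA k p G d) ≤ G * (p * AA k p G d) :=
    Nat.mul_le_mul (hw φ hφ) (Nat.mul_le_mul_right _ (Nat.sub_le p 1))
  constructor
  · rw [heq]
    refine NF_mono hd tl ψ (Nat.add_le_add_left hcard _) ?_
    exact mixD_NF hψ hqK φ
      (fun m => toK K (fun z => ((C (mu (extl φ m))).eval (y z)).isNone))
      (AA k p G d) (4 * l + 8) ha (fun m => hG.tree_fail hψ hqK _ l (hC _))
  · rw [heq]
    apply J_le_DC ψ hψ hqK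
    refine J_mono (Nat.add_le_add_left hcard _) ?_
    refine mixD_J (K := K) φ
      (fun m => toK K (fun z => ((C (mu (extl φ m))).eval (y z)).isNone))
      (AA k p G d) (4 * l + 8) ha (fun m => ?_)
    obtain ⟨F, hF, hFJ⟩ : ∃ F : (E → ZMod q) → K, (∀ z, F z =
        if ((C (mu (extl φ m))).eval (y z)).isNone = true then 0 else 1) ∧
        F ∈ J (ι := E) (α := ZMod q) K (4 * l) := by
      refine ⟨_, fun z => ?_, hG.tree_deg (fun _ => True)
        (C (mu (extl φ m))) l (hC _)⟩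
      cases h : (C (mu (extl φ m))).eval (y z) <;> simp [toK, h]
    have h2 : toK K (fun z =>
        ((C (mu (extl φ m))).eval (y z)).isNone) = 1 - F := by
      funext z
      rw [Pi.sub_apply, hF]
      cases h : (C (mu (extl φ m))).eval (y z) <;> simp [toK, h]
    rw [h2]
    have h3 : 4 * l ≤ 4 * l + 8 := by omega
    exact Submodule.sub_mem _ (J_one _) (J_mono h3 hFJ)

end degree

end Pool.Agent.V8H17.AP
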