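import Pool.Agent.Helper600R2.Cnt.Null

/-!
Derivations of low degree from hypotheses, and the degree argument for sequences of cedents.
-/

set_option linter.unusedSectionVars false

namespace Pool.Agent.V8H17.AP

open Finset Pool.Agent.Helper600R2 Pool.Agent.Helper600R2.Cnt

section

variable {Vt E : Type*} [Fintype Vt] [Fintype E] [DecidableEq Vt] (hd tl : E → Vt) {q : ℕ}
  [NeZero q] {K : Type*} [Field K] (ψ : AddChar (ZMod q) K)

/-- functions derivable in degree `D` from the hypotheses `H` -/
inductive Der (b : Vt → ZMod q) (D : ℕ) (H : Set ((E → ZMod q) → K)) :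
    ((E → ZMod q) → K) → Prop
  | null {g : (E → ZMod q) → K} (h : g ∈ NF hd tl ψ b D) : Der b D H g
  | hyp {g : (E → ZMod q) → K} (h : g ∈ H) : Der b D H g
  | add {g g' : (E → ZMod q) → K} (h : Der b D H g) (h' : Der b D H g') : Der b D H (g + g')
  | mul {g u : (E → ZMod q) → K} {a c : ℕ} (h : Der b D H g) (hg : g ∈ DC ψ a)
      (hu : u ∈ DC ψ c) (hD : a + c ≤ D) : Der b D H (g * u)

variable {hd tl ψ}
variable {b : Vt → ZMod q} {D D' w : ℕ} {H H' : Set ((E → ZMod q) → K)}
  {g h₀ : (E → ZMod q) → K}

lemma Der.nf (hdown : ∀ w ≤ D, ∀ g ∈ DC ψ w, g ∈ NF hd tl ψ b D → g ∈ NF hd tl ψ b w)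
    (h : Der hd tl ψ b D ∅ g) : g ∈ NF hd tl ψ b D := by
  induction h with
  | null h => exact h
  | hyp h => exact absurd h (Set.notMem_empty _)
  | add _ _ ih ih' => exact Submodule.add_mem _ ih ih'
  | mul h hg hu hD ih =>
    exact NF_mono hd tl ψ hD (NF_mul hd tl ψ (hdown _ (by omega) _ hg ih) hu)

lemma Der.deduce (h0 : h₀ * h₀ = h₀) (h0w : 1 - h₀ ∈ DC ψ w) (hH : ∀ h ∈ H, h ∈ DC ψ D)
    (h : Der hd tl ψ b D (insert h₀ H) g) : Der hd tl ψ b (D + w) H (g * (1 - h₀)) := by
  induction h with
  | null h => exact Der.null (NF_mul hd tl ψ h h0w)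
  | hyp h =>
    rcases h with rfl | h
    · rw [mul_sub, mul_one, h0, sub_self]
      exact Der.null (Submodule.zero_mem _)
    · exact Der.mul (Der.hyp h) (hH _ h) h0w le_rfl
  | add _ _ ih ih' =>
    rw [add_mul]
    exact Der.add ih ih'
  | mul h hg hu hD ih =>
    rw [mul_assoc, mul_comm _ (1 - h₀), ← mul_assoc]
    exact Der.mul ih (DC_mul ψ hg h0w) hu (by omega)

lemma Der.subst (h : Der hd tl ψ b D H g) (hD : D ≤ D')
    (hH : ∀ h ∈ H, Der hd tl ψ b D' H' h) : Der hd tl ψ b D' H' g := by
  induction h with
  | null h => exact Der.null (NF_mono hd tl ψ hD h)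
  | hyp h => exact hH _ h
  | add _ _ ih ih' => exact Der.add ih ih'
  | mul h hg hu hD' ih => exact Der.mul ih hg hu (by omega)

lemma Der.mono (h : Der hd tl ψ b D H g) (hD : D ≤ D') (hH : H ⊆ H') :
    Der hd tl ψ b D' H' g := h.subst hD (fun _ hh => Der.hyp (hH hh))

lemma Der.one_sub_prod {κ : Type*} [DecidableEq κ] (s : Finset κ)
    (u : κ → (E → ZMod q) → K) (h1 : ∀ i ∈ s, u i ∈ DC ψ w)
    (h2 : ∀ i ∈ s, Der hd tl ψ b D H (1 - u i)) (hs : s.card * w ≤ D) :
    (∏ i ∈ s, u i) ∈ DC ψ (s.card * w) ∧ Der hd tl ψ b D H (1 - ∏ i ∈ s, u i) := by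
  induction s using Finset.induction_on with
  | empty =>
    simp only [prod_empty, sub_self]
    exact ⟨one_mem_DC ψ _, Der.null (Submodule.zero_mem _)⟩
  | insert a s ha ih =>
    rw [card_insert_of_notMem ha, add_mul, one_mul] at hs
    obtain ⟨i1, i2⟩ := ih (fun i hi => h1 i (mem_insert_of_mem hi))
      (fun i hi => h2 i (mem_insert_of_mem hi)) (by omega)
    rw [prod_insert ha, card_insert_of_notMem ha, add_mul, one_mul]
    refine ⟨?_, ?_⟩
    · rw [add_comm]
      exact DC_mul ψ (h1 a (mem_insert_self _ _)) i1
    · have h4 : (1 : (E → ZMod q) → K) - u a * ∏ j ∈ s, u j =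
          (1 - u a) * (∏ j ∈ s, u j) + (1 - ∏ j ∈ s, u j) := by
        ring
      rw [h4]
      refine Der.add ?_ i2
      exact Der.mul (h2 a (mem_insert_self _ _))
        (Submodule.sub_mem _ (one_mem_DC ψ w) (h1 a (mem_insert_self _ _))) i1 (by omega)

/-- the hypotheses that all members of the cedent `A` are false -/
def fls {ι : Type*} (f : ι → (E → ZMod q) → Bool) (A : Finset ι) : Set ((E → ZMod q) → K) :=
  {g | ∃ x ∈ A, g = toK K (f x)}

/-- the hypotheses that the formulas `σ j` are true -/
def trs {ι : Type*} {T : ℕ} (f : ι → (E → ZMod q) → Bool) (σ : Fin T → ι) (S : Finset (Fin T)) :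
    Set ((E → ZMod q) → K) :=
  {g | ∃ j ∈ S, g = 1 - toK K (f (σ j))}

lemma toK_sq (f : (E → ZMod q) → Bool) : toK K f * toK K f = toK K f := by
  funext z
  cases h : f z <;> simp [toK, h]

lemma one_sub_toK_sq (f : (E → ZMod q) → Bool) :
    (1 - toK K f) * (1 - toK K f) = 1 - toK K f := by
  rw [sub_mul, one_mul, mul_sub, mul_one, toK_sq, sub_self, sub_zero]

/-- eliminating one premise -/
lemma elim_one {ι : Type*} {f : ι → (E → ZMod q) → Bool} {A : Finset ι} {D D' D'' w : ℕ}
    (hfA : ∀ x ∈ A, toK K (f x) ∈ DC ψ w) (hH : ∀ h ∈ H, h ∈ DC ψ D)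
    (h1 : ∀ x ∈ A, Der hd tl ψ b D (insert (1 - toK K (f x)) H) 1)
    (h2 : Der hd tl ψ b D' (fls f A) 1) (hD : D + w ≤ D'') (hD' : D' ≤ D'') :
    Der hd tl ψ b D'' H 1 := by
  refine h2.subst hD' ?_
  rintro g ⟨x, hx, rfl⟩
  have h3 := (h1 x hx).deduce (one_sub_toK_sq (f x))
    (by rw [sub_sub_cancel]; exact hfA x hx) hH
  rw [sub_sub_cancel, one_mul] at h3
  exact h3.mono hD subset_rfl

/-- eliminating a set of premises -/
lemma elim_set {ι : Type*} {T : ℕ} {f : ι → (E → ZMod q) → Bool} {A : Fin T → Finset ι}
    {D₁ w : ℕ} (S : Finset (Fin T)) (hfA : ∀ j ∈ S, ∀ x ∈ A j, toK K (f x) ∈ DC ψ w)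
    (h2 : ∀ j ∈ S, Der hd tl ψ b D₁ (fls f (A j)) 1) :
    ∀ D : ℕ, D₁ ≤ D → w ≤ D → (∀ h ∈ H, h ∈ DC ψ D) → ∀ σ : Fin T → ι,
    (∀ σ' : Fin T → ι, (∀ j ∈ S, σ' j ∈ A j) → (∀ j ∉ S, σ' j = σ j) →
      Der hd tl ψ b D (H ∪ trs f σ' S) 1) →
    Der hd tl ψ b (D + S.card * w) H 1 := by
  classical
  induction S using Finset.induction_on with
  | empty =>
    intro D _ _ _ σ h1
    have h3 := h1 σ (by simp) (by simp)
    refine h3.mono (by simp) ?_
    rintro g (hg | ⟨j, hj, _⟩)
    · exact hg
    · exact absurd hj (Finset.notMem_empty _)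
  | insert a S ha ih =>
    intro D hD1 hwD hH σ h1
    have key : Der hd tl ψ b (D + w + S.card * w) H 1 := by
      refine ih (fun j hj => hfA j (mem_insert_of_mem hj))
        (fun j hj => h2 j (mem_insert_of_mem hj)) (D + w) (by omega) (by omega)
        (fun h hh => DC_mono ψ (by omega) (hH h hh)) σ ?_
      intro σ' hσ' hσ''
      refine elim_one (A := A a) (f := f) (D := D) (hfA a (mem_insert_self _ _)) ?_ ?_
        (h2 a (mem_insert_self _ _)) le_rfl (by omega)
      · rintro h (hh | ⟨j, hj, rfl⟩)
        · exact hH h hh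
        · refine DC_mono ψ hwD (Submodule.sub_mem _ (one_mem_DC ψ w) ?_)
          exact hfA j (mem_insert_of_mem hj) _ (hσ' j hj)
      · intro x hx
        have h3 := h1 (Function.update σ' a x) ?_ ?_
        · refine h3.mono le_rfl ?_
          rintro g (hg | ⟨j, hj, rfl⟩)
          · exact Or.inr (Or.inl hg)
          · rcases mem_insert.mp hj with rfl | hj'
            · left
              rw [Function.update_self]
            · right; right
              have hja : j ≠ a := fun h => ha (h ▸ hj')
              rw [Function.update_of_ne hja]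
              exact ⟨j, hj', rfl⟩
        · intro j hj
          rcases mem_insert.mp hj with rfl | hj'
          · rw [Function.update_self]; exact hx
          · have hja : j ≠ a := fun h => ha (h ▸ hj')
            rw [Function.update_of_ne hja]
            exact hσ' j hj'
        · intro j hj
          rw [mem_insert, not_or] at hj
          rw [Function.update_of_ne hj.1]
          exact hσ'' j hj.2
    rw [card_insert_of_notMem ha]
    refine key.mono (le_of_eq ?_) subset_rfl
    ring

/-- the degree for rank `r` -/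
def Dr (c w r : ℕ) : ℕ := 3 * (c + 1) * w + (c + 1) * w * (r + 1)

lemma Dr_mono {c w r r' : ℕ} (h : r ≤ r') : Dr c w r ≤ Dr c w r' := by
  unfold Dr
  have := Nat.mul_le_mul_left ((c + 1) * w) (Nat.succ_le_succ h)
  simpa using this

lemma Dr_succ (c w r : ℕ) : Dr c w (r + 1) = Dr c w r + (c + 1) * w := by
  unfold Dr; ring

lemma Dr_zero (c w : ℕ) : Dr c w 0 = 3 * (c + 1) * w + (c + 1) * w := by
  unfold Dr; ring

/-- no sequence of cedents of low degree functions, up to negligible sets, contains the empty
cedent -/
theorem no_empty_cedent (hψ : ψ.IsPrimitive) (b : Vt → ZMod q)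
    (hVt : 3 < Fintype.card Vt) (w c B : ℕ)
    (hconn : ∀ u : Vt → ZMod q, dd hd tl u = 0 → (nsupp u).card < Fintype.card Vt → u = 0)
    (hexp : ∀ u : Vt → ZMod q, (nsupp (dd hd tl u)).card ≤ 2 * (Dr c w (B + 1) + w) →
      3 * (nsupp u).card < 2 * Fintype.card Vt → 3 * (nsupp u).card < Fintype.card Vt)
    {T : ℕ} {ι : Type*} [Nonempty ι] (A Δ : Fin T → Finset ι) (hΔ : ∀ i, Δ i ⊆ A i)
    (hA1 : ∀ i, ∀ x ∈ A i, ∀ y ∈ A i, x ∉ Δ i → y ∉ Δ i → x = y)
    (f : ι → (E → ZMod q) → Bool)
    (hdeg : ∀ i, ∀ x ∈ A i, toK K (f x) ∈ DC ψ w) (r : Fin T → ℕ) (hr : ∀ i, r i ≤ B)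
    (hf : ∀ i, Der hd tl ψ b (3 * (c + 1) * w) (fls f (A i)) 1 ∨
      ∃ P : Finset (Fin T), P.card ≤ c ∧ (∀ j ∈ P, j < i) ∧
      (Δ i ≠ ∅ → (∀ j ∈ P, Δ j ≠ ∅ → r j ≤ r i) ∧
        (∀ j ∈ P, Δ j ≠ ∅ → ¬ Δ j ⊆ Δ i → r j = r i → A i = Δ i) ∧
        ∀ j ∈ P, ∀ j' ∈ P, Δ j ≠ ∅ → Δ j' ≠ ∅ → ¬ Δ j ⊆ Δ i → ¬ Δ j' ⊆ Δ i → r j = r i →
          r j' = r i → j = j') ∧
      ∀ σ : Fin T → ι, (∀ j ∈ P, σ j ∈ A j) → ∃ J ⊆ A i, J.card ≤ c ∧
        ∃ Q : Finset ((E → ZMod q) → Bool), Q.card ≤ c ∧
        (∀ g ∈ Q, toK K g ∈ DC ψ w ∧ toK K g ∈ NF hd tl ψ b w) ∧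
        ∀ z, (∀ j ∈ P, f (σ j) z = true) → (∀ g ∈ Q, g z = false) → ∃ x ∈ J, f x z = true)
    (i : Fin T) : A i ≠ ∅ := by
  classical
  set Dst : ℕ := Dr c w (B + 1) + w with hDst
  obtain ⟨R, hR1, hR2, hR3⟩ := exists_reduction hd tl ψ hψ b Dst (by omega) hconn hexp
  have hdown : ∀ w ≤ Dst, ∀ g ∈ DC ψ w, g ∈ NF hd tl ψ b Dst → g ∈ NF hd tl ψ b w := by
    intro w hw g hg hg'
    have h1 := hR2 w hw g hg
    rw [hR1 g hg', sub_zero] at h1
    exact h1
  have hcw : w ≤ (c + 1) * w := Nat.le_mul_of_pos_left w (Nat.succ_pos c)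
  have hcw1 : (c + 1) * w = c * w + w := by ring
  have hDr : ∀ n : ℕ, 3 * (c + 1) * w ≤ Dr c w n := fun n => Nat.le_add_right _ _
  have h3w : w ≤ 3 * (c + 1) * w := by nlinarith
  -- from the context to the cedent
  have toRef : ∀ (D : ℕ) (i : Fin T) (x : ι), x ∈ A i →
      Der hd tl ψ b D (fls f (Δ i)) (1 - toK K (f x)) → Der hd tl ψ b D (fls f (A i)) 1 := by
    intro D i x hx h
    have h1 : Der hd tl ψ b D (fls f (A i)) ((1 - toK K (f x)) + toK K (f x)) := by
      refine Der.add (h.mono le_rfl ?_) (Der.hyp ⟨x, hx, rfl⟩)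
      rintro g ⟨y, hy, rfl⟩
      exact ⟨y, hΔ i hy, rfl⟩
    rw [sub_add_cancel] at h1
    exact h1
  have fls_insert : ∀ (i : Fin T) (x : ι), x ∈ A i → x ∉ Δ i →
      fls (K := K) f (A i) ⊆ insert (toK K (f x)) (fls f (Δ i)) := by
    rintro i x hx hxΔ g ⟨y, hy, rfl⟩
    by_cases hyΔ : y ∈ Δ i
    · exact Or.inr ⟨y, hyΔ, rfl⟩
    · rw [hA1 i y hy x hx hyΔ hxΔ]
      exact Or.inl rfl
  have hmain : ∀ n : ℕ, ∀ i : Fin T, i.val = n →
      A i ≠ ∅ ∧ (Δ i ≠ ∅ → Der hd tl ψ b (Dr c w (r i)) (fls f (A i)) 1 ∧
        ∀ x ∈ A i, x ∉ Δ i → Der hd tl ψ b (Dr c w (r i)) (fls f (Δ i)) (1 - toK K (f x))) ∧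
      (Δ i = ∅ → ∀ x ∈ A i, 1 - toK K (f x) ∈ NF hd tl ψ b w) := by
    intro n
    induction n using Nat.strong_induction_on with
    | _ n ih =>
      intro i hi
      -- empty context
      have suff0 : Δ i = ∅ → Der hd tl ψ b (Dr c w (B + 1)) (fls f (A i)) 1 →
          A i ≠ ∅ ∧ (Δ i ≠ ∅ → Der hd tl ψ b (Dr c w (r i)) (fls f (A i)) 1 ∧
            ∀ x ∈ A i, x ∉ Δ i →
              Der hd tl ψ b (Dr c w (r i)) (fls f (Δ i)) (1 - toK K (f x))) ∧
          (Δ i = ∅ → ∀ x ∈ A i, 1 - toK K (f x) ∈ NF hd tl ψ b w) := by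
        intro hemp s2
        refine ⟨?_, fun h => absurd hemp h, ?_⟩
        · intro hA
          have h2 : Der hd tl ψ b Dst ∅ 1 := by
            refine s2.mono (by omega) ?_
            rintro g ⟨x, hx, _⟩
            rw [hA] at hx
            exact absurd hx (Finset.notMem_empty _)
          exact hR3 (hR1 1 (h2.nf hdown))
        · intro _ x hx
          have h2 : Der hd tl ψ b (Dr c w (B + 1)) (insert (toK K (f x)) ∅) 1 := by
            refine s2.mono le_rfl ?_
            refine (fls_insert i x hx (by rw [hemp]; exact Finset.notMem_empty _)).trans ?_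
            apply Set.insert_subset_insert
            rintro g ⟨y, hy, rfl⟩
            rw [hemp] at hy
            exact absurd hy (Finset.notMem_empty _)
          have h3 := h2.deduce (toK_sq (f x))
            (Submodule.sub_mem _ (one_mem_DC ψ w) (hdeg i x hx))
            (by intro h hh; exact absurd hh (Set.notMem_empty _))
          rw [one_mul] at h3
          exact hdown w (by omega) _
            (Submodule.sub_mem _ (one_mem_DC ψ w) (hdeg i x hx)) (h3.nf hdown)
      -- nonempty context
      have suff1 : Δ i ≠ ∅ → Der hd tl ψ b (Dr c w (r i)) (fls f (A i)) 1 →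
          (∀ x ∈ A i, x ∉ Δ i →
            Der hd tl ψ b (Dr c w (r i)) (fls f (Δ i)) (1 - toK K (f x))) →
          A i ≠ ∅ ∧ (Δ i ≠ ∅ → Der hd tl ψ b (Dr c w (r i)) (fls f (A i)) 1 ∧
            ∀ x ∈ A i, x ∉ Δ i →
              Der hd tl ψ b (Dr c w (r i)) (fls f (Δ i)) (1 - toK K (f x))) ∧
          (Δ i = ∅ → ∀ x ∈ A i, 1 - toK K (f x) ∈ NF hd tl ψ b w) := by
        intro hne s1 s2
        refine ⟨?_, fun _ => ⟨s1, s2⟩, fun h => absurd h hne⟩
        intro hA
        apply hne
        have := hΔ i
        rw [hA] at this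
        exact Finset.subset_empty.mp this
      have fls_deg : ∀ D : ℕ, w ≤ D → ∀ h ∈ fls (K := K) f (A i), h ∈ DC ψ D := by
        rintro D hD h ⟨x, hx, rfl⟩
        exact DC_mono ψ hD (hdeg i x hx)
      have flsΔ_deg : ∀ D : ℕ, w ≤ D → ∀ h ∈ fls (K := K) f (Δ i), h ∈ DC ψ D := by
        rintro D hD h ⟨x, hx, rfl⟩
        exact DC_mono ψ hD (hdeg i x (hΔ i hx))
      rcases hf i with hax | ⟨P, hPc, hPlt, hrank, hinf⟩
      · by_cases hemp : Δ i = ∅
        · exact suff0 hemp (hax.mono (hDr _) subset_rfl)
        · refine suff1 hemp (hax.mono (hDr _) subset_rfl) ?_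
          intro x hx hxΔ
          have h1 : Der hd tl ψ b (3 * (c + 1) * w) (insert (toK K (f x)) (fls f (Δ i))) 1 :=
            hax.mono le_rfl (fls_insert i x hx hxΔ)
          have h3 := h1.deduce (toK_sq (f x))
            (Submodule.sub_mem _ (one_mem_DC ψ w) (hdeg i x hx)) (flsΔ_deg _ h3w)
          rw [one_mul] at h3
          refine h3.mono ?_ subset_rfl
          have := Dr_mono (c := c) (w := w) (Nat.zero_le (r i))
          rw [Dr_zero] at this
          omega
      · have ihj : ∀ j ∈ P, A j ≠ ∅ ∧
            (Δ j ≠ ∅ → Der hd tl ψ b (Dr c w (r j)) (fls f (A j)) 1 ∧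
              ∀ x ∈ A j, x ∉ Δ j →
                Der hd tl ψ b (Dr c w (r j)) (fls f (Δ j)) (1 - toK K (f x))) ∧
            (Δ j = ∅ → ∀ x ∈ A j, 1 - toK K (f x) ∈ NF hd tl ψ b w) := by
          intro j hj
          have := hPlt j hj
          exact ih j.val (by have := Fin.lt_def.mp this; omega) j rfl
        have hne : ∀ j ∈ P, (A j).Nonempty := fun j hj =>
          Finset.nonempty_iff_ne_empty.mpr (ihj j hj).1
        set Ct := P.filter (fun j => Δ j ≠ ∅ ∧ Δ j ⊆ Δ i) with hCt
        set Nc := P.filter (fun j => Δ j ≠ ∅ ∧ ¬ Δ j ⊆ Δ i) with hNc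
        have memCt : ∀ j, j ∈ Ct ↔ j ∈ P ∧ Δ j ≠ ∅ ∧ Δ j ⊆ Δ i := by
          intro j; rw [hCt, mem_filter]
        have memNc : ∀ j, j ∈ Nc ↔ j ∈ P ∧ Δ j ≠ ∅ ∧ ¬ Δ j ⊆ Δ i := by
          intro j; rw [hNc, mem_filter]
        by_cases hshort : ∃ j ∈ Ct, A j = Δ j
        · -- weakening
          obtain ⟨j, hj, hjA⟩ := hshort
          rw [memCt] at hj
          obtain ⟨hjP, hjΔ, hji⟩ := hj
          have hiΔ : Δ i ≠ ∅ := by
            intro h
            rw [h] at hji
            exact hjΔ (Finset.subset_empty.mp hji)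
          have hrj : r j ≤ r i := (hrank hiΔ).1 j hjP hjΔ
          have h1 : Der hd tl ψ b (Dr c w (r i)) (fls f (Δ i)) 1 := by
            refine ((ihj j hjP).2.1 hjΔ).1.mono (Dr_mono hrj) ?_
            rintro g ⟨y, hy, rfl⟩
            rw [hjA] at hy
            exact ⟨y, hji hy, rfl⟩
          refine suff1 hiΔ ?_ ?_
          · refine h1.mono le_rfl ?_
            rintro g ⟨y, hy, rfl⟩
            exact ⟨y, hΔ i hy, rfl⟩
          · intro x hx _
            have h2 := Der.mul (a := 0) (c := w) h1 (one_mem_DC ψ 0)
              (Submodule.sub_mem _ (one_mem_DC ψ w) (hdeg i x hx))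
              (by have := hDr (r i); omega)
            rw [one_mul] at h2
            exact h2
        · push Not at hshort
          -- the formulas outside the contexts
          obtain ⟨x0, hx0⟩ : ∃ x0 : Fin T → ι, ∀ j ∈ P, x0 j ∈ A j ∧ (j ∈ Ct → x0 j ∉ Δ j) := by
            have : ∀ j ∈ P, ∃ x, x ∈ A j ∧ (j ∈ Ct → x ∉ Δ j) := by
              intro j hj
              by_cases hjC : j ∈ Ct
              · have h1 := hshort j hjC
                have h2 : ∃ x ∈ A j, x ∉ Δ j := by
                  by_contra hcon
                  push Not at hcon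
                  exact h1 (Finset.Subset.antisymm hcon (hΔ j))
                obtain ⟨x, hx, hx'⟩ := h2
                exact ⟨x, hx, fun _ => hx'⟩
              · obtain ⟨x, hx⟩ := hne j hj
                exact ⟨x, hx, fun h => absurd h hjC⟩
            choose! x0 hx0 using this
            exact ⟨x0, hx0⟩
          set H0 : Set ((E → ZMod q) → K) := fls f (A i) ∪ trs f x0 Ct with hH0
          have H0_deg : ∀ D : ℕ, w ≤ D → ∀ h ∈ H0, h ∈ DC ψ D := by
            rintro D hD h (hh | ⟨j, hj, rfl⟩)
            · exact fls_deg D hD h hh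
            · refine DC_mono ψ hD (Submodule.sub_mem _ (one_mem_DC ψ w) ?_)
              exact hdeg j _ (hx0 j ((memCt j).mp hj).1).1
          -- the basic derivation
          have base : ∀ σ : Fin T → ι, (∀ j ∈ P, σ j ∈ A j) → (∀ j ∈ P, j ∉ Nc → σ j = x0 j) →
              Der hd tl ψ b (3 * (c + 1) * w) (H0 ∪ trs f σ Nc) 1 := by
            intro σ hσ hσ'
            obtain ⟨J, hJA, hJc, Q, hQc, hQ, hstep⟩ := hinf σ hσ
            obtain ⟨a1, a2⟩ := Der.one_sub_prod (hd := hd) (tl := tl) (b := b) (w := w)
              (D := 3 * (c + 1) * w) (H := H0 ∪ trs f σ Nc) P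
              (fun j => toK K (f (σ j)))
              (fun j hj => hdeg j _ (hσ j hj)) (by
                intro j hj
                by_cases hjN : j ∈ Nc
                · exact Der.hyp (Or.inr ⟨j, hjN, rfl⟩)
                · by_cases hjΔ : Δ j = ∅
                  · exact Der.null (NF_mono hd tl ψ h3w ((ihj j hj).2.2 hjΔ _ (hσ j hj)))
                  · have hjC : j ∈ Ct := by
                      rw [memCt]
                      refine ⟨hj, hjΔ, ?_⟩
                      by_contra hcon
                      exact hjN ((memNc j).mpr ⟨hj, hjΔ, hcon⟩)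
                    rw [hσ' j hj hjN]
                    exact Der.hyp (Or.inl (Or.inr ⟨j, hjC, rfl⟩)))
              (by nlinarith)
            obtain ⟨b1, b2⟩ := Der.one_sub_prod (hd := hd) (tl := tl) (b := b) (w := w)
              (D := 3 * (c + 1) * w) (H := H0 ∪ trs f σ Nc) Q (fun g => 1 - toK K g)
              (fun g hg => Submodule.sub_mem _ (one_mem_DC ψ w) (hQ g hg).1)
              (fun g hg => by
                rw [sub_sub_cancel]
                exact Der.null (NF_mono hd tl ψ h3w (hQ g hg).2))
              (by nlinarith)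
            obtain ⟨c1, c2⟩ := Der.one_sub_prod (hd := hd) (tl := tl) (b := b) (w := w)
              (D := 3 * (c + 1) * w) (H := H0 ∪ trs f σ Nc) J
              (fun x => 1 - toK K (f x))
              (fun x hx => Submodule.sub_mem _ (one_mem_DC ψ w) (hdeg i x (hJA hx)))
              (fun x hx => by
                rw [sub_sub_cancel]
                exact Der.hyp (Or.inl (Or.inl ⟨x, hJA hx, rfl⟩)))
              (by nlinarith)
            set X := ∏ j ∈ P, toK K (f (σ j)) with hX
            set Y := ∏ g ∈ Q, ((1 : (E → ZMod q) → K) - toK K g) with hY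
            set Z := ∏ x ∈ J, ((1 : (E → ZMod q) → K) - toK K (f x)) with hZ
            have hzero : X * (Y * Z) = 0 := by
              funext z
              rw [Pi.mul_apply, Pi.mul_apply, Pi.zero_apply, hX, hY, hZ, Finset.prod_apply,
                Finset.prod_apply, Finset.prod_apply]
              by_cases hP : ∀ j ∈ P, f (σ j) z = true
              · by_cases hQz : ∀ g ∈ Q, g z = false
                · obtain ⟨x, hx, hxz⟩ := hstep z hP hQz
                  rw [Finset.prod_eq_zero (s := J) hx (by simp [toK, hxz]), mul_zero, mul_zero]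
                · push Not at hQz
                  obtain ⟨g, hg, hgz⟩ := hQz
                  have hgz' : g z = true := by simpa using hgz
                  rw [Finset.prod_eq_zero (s := Q) hg (by simp [toK, hgz']), zero_mul, mul_zero]
              · push Not at hP
                obtain ⟨j, hj, hjz⟩ := hP
                rw [Finset.prod_eq_zero (s := P) hj (by simp [toK, hjz]), zero_mul]
            have hone : (1 : (E → ZMod q) → K) =
                (1 - X) * (Y * Z) + ((1 - Y) * Z + (1 - Z)) := by
              have : (1 - X) * (Y * Z) + ((1 - Y) * Z + (1 - Z)) = 1 - X * (Y * Z) := by ring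
              rw [this, hzero, sub_zero]
            rw [hone]
            have e1 : P.card * w ≤ c * w := Nat.mul_le_mul_right w hPc
            have e2 : Q.card * w ≤ c * w := Nat.mul_le_mul_right w hQc
            have e3 : J.card * w ≤ c * w := Nat.mul_le_mul_right w hJc
            have e4 : c * w + c * w + c * w ≤ 3 * (c + 1) * w := by nlinarith
            refine Der.add ?_ (Der.add ?_ c2)
            · exact Der.mul a2 (Submodule.sub_mem _ (one_mem_DC ψ _) a1) (DC_mul ψ b1 c1)
                (by omega)
            · exact Der.mul b2 (Submodule.sub_mem _ (one_mem_DC ψ _) b1) c1 (by omega)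
          -- eliminating premises whose level is at most `E0`
          have elimL : ∀ (E0 : ℕ), 3 * (c + 1) * w ≤ E0 → ∀ S ⊆ Nc,
              (∀ j ∈ S, Dr c w (r j) ≤ E0) → ∀ σ : Fin T → ι, (∀ j ∈ P, σ j ∈ A j) →
              (∀ j ∈ P, j ∉ Nc → σ j = x0 j) →
              Der hd tl ψ b (E0 + c * w) (H0 ∪ trs f σ (Nc \ S)) 1 := by
            intro E0 hE0 S hS hSr σ hσ hσ0
            have hwE0 : w ≤ E0 := h3w.trans hE0
            have hSc : S.card * w ≤ c * w := by
              apply Nat.mul_le_mul_right
              exact (card_le_card hS).trans ((card_filter_le _ _).trans hPc)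
            refine Der.mono (D := E0 + S.card * w) ?_ (by omega) subset_rfl
            refine elim_set (f := f) (A := A) (D₁ := E0) S
              (fun j _ x hx => hdeg j x hx) ?_ E0 le_rfl hwE0 ?_ σ ?_
            · intro j hj
              have hjN := (memNc j).mp (hS hj)
              exact ((ihj j hjN.1).2.1 hjN.2.1).1.mono (hSr j hj) subset_rfl
            · rintro h (hh | ⟨j, hj, rfl⟩)
              · exact H0_deg E0 hwE0 h hh
              · refine DC_mono ψ hwE0 (Submodule.sub_mem _ (one_mem_DC ψ w) ?_)
                refine hdeg j _ (hσ j ?_)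
                rw [mem_sdiff] at hj
                exact ((memNc j).mp hj.1).1
            · intro σ' hσ' hσ''
              have h1 := base σ' (fun j hj => by
                by_cases hjL : j ∈ S
                · exact hσ' j hjL
                · rw [hσ'' j hjL]; exact hσ j hj) (fun j hj hjN => by
                  rw [hσ'' j (fun h => hjN (hS h))]
                  exact hσ0 j hj hjN)
              refine h1.mono hE0 ?_
              rintro g (hg | ⟨j, hj, rfl⟩)
              · exact Or.inl (Or.inl hg)
              · by_cases hjL : j ∈ S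
                · exact Or.inr ⟨j, hjL, rfl⟩
                · refine Or.inl (Or.inr ⟨j, mem_sdiff.mpr ⟨hj, hjL⟩, ?_⟩)
                  rw [hσ'' j hjL]
          have hx0A : ∀ j ∈ P, x0 j ∈ A j := fun j hj => (hx0 j hj).1
          by_cases hemp : Δ i = ∅
          · -- empty context
            apply suff0 hemp
            have hCe : Ct = ∅ := by
              rw [Finset.eq_empty_iff_forall_notMem]
              intro j hj
              rw [memCt, hemp] at hj
              exact hj.2.1 (Finset.subset_empty.mp hj.2.2)
            have h1 := elimL (Dr c w B) (hDr B) Nc subset_rfl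
              (fun j _ => Dr_mono (hr j)) x0 hx0A (fun _ _ _ => rfl)
            refine h1.mono ?_ ?_
            · rw [Dr_succ]; omega
            · rintro g ((hg | ⟨j, hj, _⟩) | ⟨j, hj, _⟩)
              · exact hg
              · rw [hCe] at hj; exact absurd hj (Finset.notMem_empty _)
              · rw [sdiff_self] at hj; exact absurd hj (Finset.notMem_empty _)
          · obtain ⟨hr1, hr2, hr3⟩ := hrank hemp
            -- substituting the contained premises
            have subC : ∀ (g : (E → ZMod q) → K) (H : Set ((E → ZMod q) → K)),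
                fls f (Δ i) ⊆ H →
                Der hd tl ψ b (Dr c w (r i)) (H ∪ trs f x0 Ct) g →
                Der hd tl ψ b (Dr c w (r i)) H g := by
              intro g H hH h
              refine h.subst le_rfl ?_
              rintro g' (hg' | ⟨j, hj, rfl⟩)
              · exact Der.hyp hg'
              · have hj' := (memCt j).mp hj
                have h2 := ((ihj j hj'.1).2.1 hj'.2.1).2 (x0 j) (hx0A j hj'.1)
                  ((hx0 j hj'.1).2 hj)
                refine h2.mono (Dr_mono (hr1 j hj'.1 hj'.2.1)) ?_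
                rintro g'' ⟨y, hy, rfl⟩
                exact hH ⟨y, hj'.2.2 hy, rfl⟩
            set E0 : ℕ := 3 * (c + 1) * w + (c + 1) * w * (r i) with hE0
            have hE0' : E0 + (c + 1) * w = Dr c w (r i) := by
              rw [hE0]; unfold Dr; ring
            have hE03 : 3 * (c + 1) * w ≤ E0 := Nat.le_add_right _ _
            have hwE0 : w ≤ E0 := h3w.trans hE03
            set Lt := Nc.filter (fun j => r j < r i) with hLt
            have memLt : ∀ j, j ∈ Lt ↔ j ∈ Nc ∧ r j < r i := by
              intro j; rw [hLt]; exact mem_filter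
            have hLtr : ∀ j ∈ Lt, Dr c w (r j) ≤ E0 := by
              intro j hj
              rw [hLt, mem_filter] at hj
              have h1 : r j + 1 ≤ r i := hj.2
              unfold Dr
              rw [hE0]
              have := Nat.mul_le_mul_left ((c + 1) * w) h1
              omega
            have hdeep := elimL E0 hE03 Lt (filter_subset _ _) hLtr
            by_cases hAΔ : A i = Δ i
            · -- no formula outside the context
              have hRef : Der hd tl ψ b (Dr c w (r i)) H0 1 := by
                rcases (Nc \ Lt).eq_empty_or_nonempty with he | ⟨a, ha⟩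
                · refine (hdeep x0 hx0A (fun _ _ _ => rfl)).mono (by omega) ?_
                  rintro g (hg | ⟨j, hj, _⟩)
                  · exact hg
                  · rw [he] at hj; exact absurd hj (Finset.notMem_empty _)
                · have haN : a ∈ Nc := (mem_sdiff.mp ha).1
                  have haP := (memNc a).mp haN
                  have hreq : ∀ j ∈ Nc \ Lt, r j = r i := by
                    intro j hj
                    rw [mem_sdiff, memLt] at hj
                    have hj' := (memNc j).mp hj.1
                    have h1 := hr1 j hj'.1 hj'.2.1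
                    by_contra hne'
                    exact hj.2 ⟨hj.1, by omega⟩
                  have huniq : ∀ j ∈ Nc \ Lt, j = a := by
                    intro j hj
                    have hj' := (memNc j).mp (mem_sdiff.mp hj).1
                    exact hr3 j hj'.1 a haP.1 hj'.2.1 haP.2.1 hj'.2.2 haP.2.2
                      (hreq j hj) (hreq a ha)
                  refine elim_one (A := A a) (f := f) (D := E0 + c * w)
                    (D' := Dr c w (r i)) (w := w) (hdeg a) (H0_deg _ (by omega)) ?_ ?_ ?_ le_rfl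
                  · intro x hx
                    have h1 := hdeep (Function.update x0 a x) (by
                      intro j hj
                      by_cases hja : j = a
                      · subst hja
                        rw [Function.update_self]; exact hx
                      · rw [Function.update_of_ne hja]
                        exact hx0A j hj) (by
                      intro j _ hjN
                      have hja : j ≠ a := fun h => hjN (h ▸ haN)
                      rw [Function.update_of_ne hja])
                    refine h1.mono le_rfl ?_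
                    rintro g (hg | ⟨j, hj, rfl⟩)
                    · exact Or.inr hg
                    · left
                      rw [huniq j hj, Function.update_self]
                  · rw [← hreq a ha]
                    exact ((ihj a haP.1).2.1 haP.2.1).1
                  · omega
              have h1 : Der hd tl ψ b (Dr c w (r i)) (fls f (A i)) 1 := by
                refine subC 1 (fls f (A i)) ?_ hRef
                rintro g ⟨y, hy, rfl⟩
                exact ⟨y, hΔ i hy, rfl⟩
              refine suff1 hemp h1 ?_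
              intro x hx hxΔ
              rw [hAΔ] at hx
              exact absurd hx hxΔ
            · -- one formula outside the context
              have hNL : Nc \ Lt = ∅ := by
                rw [Finset.eq_empty_iff_forall_notMem]
                intro j hj
                rw [mem_sdiff, memLt] at hj
                have hj' := (memNc j).mp hj.1
                have h1 := hr1 j hj'.1 hj'.2.1
                by_cases h2 : r j = r i
                · exact hAΔ (hr2 j hj'.1 hj'.2.1 hj'.2.2 h2)
                · exact hj.2 ⟨hj.1, by omega⟩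
              have hRef : Der hd tl ψ b (E0 + c * w) H0 1 := by
                refine (hdeep x0 hx0A (fun _ _ _ => rfl)).mono le_rfl ?_
                rintro g (hg | ⟨j, hj, _⟩)
                · exact hg
                · rw [hNL] at hj; exact absurd hj (Finset.notMem_empty _)
              have hout : ∀ x ∈ A i, x ∉ Δ i →
                  Der hd tl ψ b (Dr c w (r i)) (fls f (Δ i)) (1 - toK K (f x)) := by
                intro x hx hxΔ
                have h2 : Der hd tl ψ b (E0 + c * w)
                    (insert (toK K (f x)) (fls f (Δ i) ∪ trs f x0 Ct)) 1 := by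
                  refine hRef.mono le_rfl ?_
                  rintro g (hg | hg)
                  · rcases fls_insert i x hx hxΔ hg with h | h
                    · exact Or.inl h
                    · exact Or.inr (Or.inl h)
                  · exact Or.inr (Or.inr hg)
                have h3 := h2.deduce (toK_sq (f x))
                  (Submodule.sub_mem _ (one_mem_DC ψ w) (hdeg i x hx)) (by
                    rintro h (hh | ⟨j, hj, rfl⟩)
                    · exact flsΔ_deg _ (by omega) h hh
                    · refine DC_mono ψ (by omega : w ≤ E0 + c * w)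
                        (Submodule.sub_mem _ (one_mem_DC ψ w) ?_)
                      exact hdeg j _ (hx0A j ((memCt j).mp hj).1))
                rw [one_mul] at h3
                exact subC _ (fls f (Δ i)) subset_rfl (h3.mono (by omega) subset_rfl)
              obtain ⟨x, hx, hxΔ⟩ : ∃ x ∈ A i, x ∉ Δ i := by
                by_contra hcon
                push Not at hcon
                exact hAΔ (Finset.Subset.antisymm hcon (hΔ i))
              exact suff1 hemp (toRef _ i x hx (hout x hx hxΔ)) hout
  exact (hmain i.val i rfl).1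

end

end Pool.Agent.V8H17.AP
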