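import Pool.Agent.V8H17.AP.Main
import Pool.Agent.Helper600R2.Cnt.Final

/-!
Choice of parameters.
-/

set_option linter.unusedSectionVars false

namespace Pool.Agent.V8H17.AP

open Finset Pool.Agent.Helper600R2 Pool.Agent.Helper600R2.Cnt

section mono

variable {p : ℕ} {α : Type}

lemma LocalInf.mono {c c' : ℕ} (hc : c ≤ c') {T : ℕ} {Γ : Fin T → Finset (Fm p α)}
    {P : Finset (Fin T)} {i : Fin T} (h : LocalInf c Γ P i) : LocalInf c' Γ P i := by
  obtain ⟨h1, h2, h3⟩ := h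
  refine ⟨h1.trans hc, h2, fun σ hσ => ?_⟩
  obtain ⟨J, hJ, hJc, Q, hQ, hQc, hV⟩ := h3 σ hσ
  exact ⟨J, hJ, hJc.trans hc, Q, hQ, hQc.trans hc, hV⟩

lemma IsRefutation.mono {F : Set (Finset (α × Bool))} {c c' B B' : ℕ} (hc : c ≤ c')
    (hB : B ≤ B') {T : ℕ} {Γ : Fin T → Finset (Fm p α)} (h : IsRefutation F c B Γ) :
    IsRefutation F c' B' Γ := by
  obtain ⟨h1, P, Δ, r, h2, hΔ, h3⟩ := h
  refine ⟨h1, P, Δ, r, fun i => (h2 i).trans hB, hΔ, fun i => ?_⟩
  rcases h3 i with h4 | ⟨h4, h5⟩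
  · exact Or.inl h4
  · exact Or.inr ⟨h4.mono hc, h5⟩

lemma FanLe_mono {s s' : ℕ} (h : s ≤ s') {φ : Fm p α} (hφ : φ.FanLe s) : φ.FanLe s' := by
  cases φ with
  | var a => trivial
  | neg φ => trivial
  | or t φs => trivial
  | md i t φs => trivial
  | fn t F φs => exact le_trans (α := ℕ) hφ h

end mono

lemma ww_le {p d X k G s : ℕ} (hX : 1 ≤ X) (hk : k ≤ X) (hG : G + 1 ≤ X)
    (hs : s + 2 ≤ X) :
    ww k p G d s ≤ (16 + 4 * p * (2 * p) ^ d + 4 * (2 * p) ^ d) * X ^ (d + 2) := by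
  have h1 : AA k p G d ≤ 4 * (2 * p) ^ d * X ^ (d + 1) := by
    unfold AA
    calc 4 * k * (2 * p * (G + 1)) ^ d ≤ 4 * X * (2 * p * X) ^ d :=
          Nat.mul_le_mul (Nat.mul_le_mul_left 4 hk)
            (Nat.pow_le_pow_left (Nat.mul_le_mul_left _ hG) d)
      _ = 4 * (2 * p) ^ d * X ^ (d + 1) := by rw [mul_pow, pow_succ]; ring
  have h2 : G * (p * AA k p G d) ≤ 4 * p * (2 * p) ^ d * X ^ (d + 2) := by
    calc G * (p * AA k p G d) ≤ X * (p * (4 * (2 * p) ^ d * X ^ (d + 1))) :=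
          Nat.mul_le_mul (by omega) (Nat.mul_le_mul_left _ h1)
      _ = 4 * p * (2 * p) ^ d * X ^ (d + 2) := by ring
  have h3 : X * X ≤ X ^ (d + 2) := by
    calc X * X = X ^ 2 := by ring
      _ ≤ X ^ (d + 2) := Nat.pow_le_pow_right hX (by omega)
  have h4 : X ^ (d + 1) ≤ X ^ (d + 2) := Nat.pow_le_pow_right hX (by omega)
  have h5 : 4 * (2 * p) ^ d * X ^ (d + 1) ≤ 4 * (2 * p) ^ d * X ^ (d + 2) :=
    Nat.mul_le_mul_left _ h4
  have h6 : (s + 2) * k ≤ X * X := Nat.mul_le_mul hs hk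
  have h7 : 1 ≤ X ^ (d + 2) := Nat.one_le_pow _ _ hX
  unfold ww
  calc 4 * ((s + 2) * k) + 12 + G * (p * AA k p G d) + AA k p G d
      ≤ 16 * X ^ (d + 2) + 4 * p * (2 * p) ^ d * X ^ (d + 2) +
        4 * (2 * p) ^ d * X ^ (d + 2) := by omega
    _ = _ := by ring

lemma Dst_le {Y w X : ℕ} (hX : Y + 5 ≤ X) :
    Dr (Y + 2) w (Y + 1) + w ≤ 2 * X ^ 2 * w := by
  have h1 : Dr (Y + 2) w (Y + 1) + w = ((Y + 3) * (Y + 5) + 1) * w := by
    unfold Dr; ring
  rw [h1]
  apply Nat.mul_le_mul_right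
  have h2 : (Y + 3) * (Y + 5) ≤ X * X := Nat.mul_le_mul (by omega) hX
  have h3 : 1 ≤ X * X := Nat.mul_pos (by omega) (by omega)
  rw [sq]
  omega

/-- the combinatorial core with explicit parameters -/
theorem core (p q : ℕ) (hp : p.Prime) (hq : 2 ≤ q) (hpq : ¬ p ∣ q) (d : ℕ) :
    ∃ C e : ℕ, 0 < C ∧ 0 < e ∧ ∀ N Y : ℕ, 1 ≤ Y → (C * Y) ^ e ≤ N →
      ∀ (α : Type) (blk : α → Finset (Fin N)) (F : Set (Finset (α × Bool))),
        IsCount q blk F → ∀ (T : ℕ) (Γ : Fin T → Finset (Fm p α)),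
        IsRefutation F Y Y Γ → (∀ φ ∈ allSub Γ, φ.depth ≤ d) →
        (∀ φ ∈ allSub Γ, φ.rank ≤ Y) → (∀ φ ∈ allSub Γ, φ.FanLe Y) →
        2 ^ Y < (allSub Γ).card := by
  classical
  have : Fact p.Prime := ⟨hp⟩
  have : NeZero q := ⟨by omega⟩
  have hp1 : 1 ≤ p := hp.one_le
  set C1 : ℕ := 16 + 4 * p * (2 * p) ^ d + 4 * (2 * p) ^ d with hC1
  set C0 : ℕ := 240 * q * (4 * C1 + 1) + q * (2 * d + 3) + 32 with hC0
  set w : ℕ := 2 * (q * q + q) + 4 with hw
  set d2 : ℕ := 2 * d with hd2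
  refine ⟨C0 * (q * (p + 5)), (d + 4) * w ^ d2, ?_, ?_, ?_⟩
  · exact Nat.mul_pos (by omega) (Nat.mul_pos (by omega) (by omega))
  · exact Nat.mul_pos (by omega) (by positivity)
  intro N Y hY hN0 α blk F hF T Γ href hdepth hrank hfan
  by_contra hcon
  push Not at hcon
  set D : ℕ := (p + 5) * Y with hD
  set k : ℕ := q * D with hk
  have hD1 : 1 ≤ D := Nat.mul_pos (by omega) hY
  have hk1 : 1 ≤ k := Nat.mul_pos (by omega) hD1
  have hkY : Y + 5 ≤ k := by
    have h1 : 2 * (7 * Y) ≤ k := by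
      rw [hk, hD]
      exact Nat.mul_le_mul hq (Nat.mul_le_mul_right _ (by have := hp.two_le; omega))
    omega
  set m : ℕ := C0 * k ^ (d + 4) with hm
  have hN : m ^ (w ^ d2) ≤ N := by
    refine le_trans ?_ hN0
    rw [pow_mul (C0 * (q * (p + 5)) * Y) (d + 4) (w ^ d2)]
    apply Nat.pow_le_pow_left
    have h1 : C0 * (q * (p + 5)) * Y = C0 * k := by rw [hk, hD]; ring
    rw [h1, hm, mul_pow C0 k (d + 4)]
    apply Nat.mul_le_mul_right
    exact Nat.le_self_pow (by omega) C0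
  have hkpow : k ≤ k ^ (d + 4) := Nat.le_self_pow (by omega) k
  have hmk : C0 * k ≤ m := Nat.mul_le_mul_left C0 hkpow
  have hmC : C0 ≤ m := Nat.le_mul_of_pos_right C0 (Nat.pow_pos hk1)
  have hm32 : 32 ≤ m := by omega
  have hmk' : k ≤ m := by
    refine le_trans ?_ hmk
    exact Nat.le_mul_of_pos_left k (by omega)
  have hqk : q ≤ k := Nat.le_mul_of_pos_right q hD1
  have hmq : q ≤ m := hqk.trans hmk'
  have hm1 : 1 ≤ m := by omega
  -- the sizes
  let Asz : ℕ → ℕ := fun h => if h = 0 then N else m ^ (w ^ (d2 - h))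
  have hAm : ∀ h, 1 ≤ h → m ≤ Asz h := by
    intro h hh
    simp only [Asz, if_neg (show h ≠ 0 by omega)]
    exact Nat.le_self_pow (by positivity) m
  have hAstep : ∀ h < d2, Asz (h + 1) ^ w ≤ Asz h := by
    intro h hh
    have e1 : Asz (h + 1) = m ^ (w ^ (d2 - (h + 1))) := by
      simp only [Asz, if_neg (show h + 1 ≠ 0 by omega)]
    have e2 : w ^ (d2 - (h + 1)) * w = w ^ (d2 - h) := by
      rw [← pow_succ]; congr 1; omega
    rw [e1, ← pow_mul, e2]
    by_cases h0 : h = 0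
    · subst h0
      simp only [Asz, if_true, Nat.sub_zero]
      exact hN
    · simp only [Asz, if_neg h0]
      exact le_rfl
  have hmN : m ≤ N := by
    refine le_trans ?_ hN
    exact Nat.le_self_pow (by positivity) m
  have hAN : ∀ h ≤ d2, Asz h ≤ N := by
    intro h hh
    by_cases h0 : h = 0
    · simp only [Asz, h0, if_true]; exact le_rfl
    · simp only [Asz, if_neg h0]
      refine le_trans ?_ hN
      exact Nat.pow_le_pow_right hm1 (Nat.pow_le_pow_right (by omega) (by omega))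
  let b : ℕ → ℕ := fun h => (N - Asz h) / q
  have hb0 : b 0 = 0 := by simp [b, Asz]
  have hstep : ∀ h < d2, q * b (h + 1) < N ∧ b h ≤ b (h + 1) ∧
      16 * (2 * k * ((N - q * b (h + 1)) ^ q) ^ q * (N - q * b (h + 1)) ^ q) ≤
        b (h + 1) - b h := by
    intro h hh
    have hm' := hAm (h + 1) (by omega)
    exact num_step (by omega) (hm32.trans hm') (hmq.trans hm') (hmk'.trans hm')
      (hAstep h hh) (hAN h (by omega))
  -- the family
  set 𝒰 := allSub Γ with h𝒰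
  obtain ⟨𝓜, hM1, hM2, hM3⟩ := exists_fam (p := p) blk 𝒰 Y Y hrank hfan
  have hfamcard : 𝓜.card ≤ 16 ^ D := by
    refine hM3.trans ?_
    have h1 : p ^ Y ≤ 2 ^ (p * Y) := by
      rw [pow_mul]
      exact Nat.pow_le_pow_left (Nat.lt_two_pow_self).le Y
    have h2 : 5 * 2 ^ Y ≤ 2 ^ (3 * Y + Y) := by
      rw [pow_add]
      apply Nat.mul_le_mul_right
      calc 5 ≤ 2 ^ (3 * 1) := by norm_num
        _ ≤ 2 ^ (3 * Y) := Nat.pow_le_pow_right (by norm_num) (Nat.mul_le_mul_left 3 hY)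
    calc 𝒰.card * (p ^ Y * (5 * 2 ^ Y)) ≤ 2 ^ Y * (2 ^ (p * Y) * 2 ^ (3 * Y + Y)) :=
          Nat.mul_le_mul hcon (Nat.mul_le_mul h1 h2)
      _ = 2 ^ D := by
          rw [← pow_add, ← pow_add, hD]
          congr 1
          ring
      _ ≤ 16 ^ D := Nat.pow_le_pow_left (by norm_num) D
  obtain ⟨ρ, hρ1, hρ2, hρ3⟩ := levels (q := q) (k := k) (D := D) (by omega) hD1 rfl
    𝓜 (fam_closed blk (allSub_closed Γ) hM1 hM2) hfamcard b hb0 d2 hstep d2 le_rfl
  have hT : ∀ φ ∈ allSub Γ, ∀ l, HasT q k (subst blk (mu l) φ) ρ k := by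
    intro φ hφ l
    apply hρ3 _ (hM1 φ hφ l (subst_mem_auxM blk _ φ))
    exact (subst_dep blk _ φ).trans (Nat.mul_le_mul_left 2 (hdepth φ hφ))
  -- the free part
  have hfree : m ≤ N - q * ρ.card ∧ q * ρ.card ≤ N := by
    rw [hρ2]
    by_cases hd0 : d2 = 0
    · rw [hd0, hb0]
      simp only [mul_zero, Nat.sub_zero, Nat.zero_le, and_true]
      exact hmN
    · have h1 : Asz d2 = m := by
        simp only [Asz, if_neg hd0, Nat.sub_self, pow_zero, pow_one]
      have h2 : q * b d2 ≤ N - m := by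
        simp only [b, h1]
        exact Nat.mul_div_le _ _
      omega
  -- the graph
  set n : ℕ := m / (4 * q) with hn
  have hww : ww k p Y d Y ≤ C1 * k ^ (d + 2) :=
    ww_le hk1 le_rfl (by omega) (by omega)
  set Dst : ℕ := Dr (Y + 2) (ww k p Y d Y) (Y + 1) + ww k p Y d Y with hDst
  have hDst1 : Dst ≤ 2 * C1 * k ^ (d + 4) := by
    refine (Dst_le hkY).trans ?_
    calc 2 * k ^ 2 * ww k p Y d Y ≤ 2 * k ^ 2 * (C1 * k ^ (d + 2)) :=
          Nat.mul_le_mul_left _ hww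
      _ = 2 * C1 * k ^ (d + 4) := by ring
  have hmbig : 240 * q * (2 * Dst + 1) ≤ m := by
    calc 240 * q * (2 * Dst + 1)
        ≤ 240 * q * (2 * (2 * C1 * k ^ (d + 4)) + 1 * k ^ (d + 4)) := by
          apply Nat.mul_le_mul_left
          apply Nat.add_le_add
          · exact Nat.mul_le_mul_left _ hDst1
          · rw [one_mul]; exact Nat.one_le_pow _ _ hk1
      _ = (240 * q * (4 * C1 + 1)) * k ^ (d + 4) := by ring
      _ ≤ C0 * k ^ (d + 4) := Nat.mul_le_mul_right _ (by omega)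
  have hn1 : 60 * (2 * Dst + 1) ≤ n := by
    rw [hn, Nat.le_div_iff_mul_le (by omega)]
    refine le_trans (le_of_eq ?_) hmbig
    ring
  have hn25 : 25 ≤ n := by omega
  obtain ⟨π, hπ⟩ := exists_expander hn25
  have h4q : 4 * q * n ≤ m := Nat.mul_div_le m (4 * q)
  -- the field
  have hqK : (q : AlgebraicClosure (ZMod p)) ≠ 0 := by
    intro h
    rw [CharP.cast_eq_zero_iff (AlgebraicClosure (ZMod p)) p q] at h
    exact hpq h
  have : NeZero (q : ZMod p) := ⟨by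
    intro h
    rw [CharP.cast_eq_zero_iff (ZMod p) p q] at h
    exact hpq h⟩
  obtain ⟨ζ, hζ⟩ := HasEnoughRootsOfUnity.exists_primitiveRoot (AlgebraicClosure (ZMod p)) q
  have hprim := AddChar.zmodChar_primitive_of_primitive_root q hζ
  refine no_refutation (Vt := Fin n) (E := Fin n × Bool) (ghd π) gtl _ hprim hqK
    (by rw [Fintype.card_fin]; omega) (inc_card π) Y Y d k Y Y hqk (graph_conn π)
    (graph_exp π hπ ?_) ρ hρ1 ?_ hF Γ href hdepth hrank hfan ?_ hT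
  · rw [Nat.le_div_iff_mul_le (by norm_num)]
    have h1 : (2 * Dst) * 60 ≤ 60 * (2 * Dst + 1) := by omega
    exact h1.trans hn1
  · have h1 : Fintype.card (Fin n × Bool) * (2 * (q - 1)) ≤ 4 * q * n := by
      rw [Fintype.card_prod, Fintype.card_fin, Fintype.card_bool]
      calc n * 2 * (2 * (q - 1)) = (q - 1) * (4 * n) := by ring
        _ ≤ q * (4 * n) := Nat.mul_le_mul_right _ (Nat.sub_le q 1)
        _ = 4 * q * n := by ring
    omega
  · have h1 : q * ((Y + 2) * k + k * (2 * d + 2)) ≤ m := by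
      have e1 : (Y + 2) * k ≤ k * k := Nat.mul_le_mul_right k (by omega)
      have e2 : k ≤ k * k := Nat.le_mul_of_pos_left k hk1
      have e3 : k * k ≤ k ^ (d + 4) := by
        calc k * k = k ^ 2 := by ring
          _ ≤ k ^ (d + 4) := Nat.pow_le_pow_right hk1 (by omega)
      calc q * ((Y + 2) * k + k * (2 * d + 2)) ≤ q * (k * k + k * k * (2 * d + 2)) := by
            apply Nat.mul_le_mul_left
            exact Nat.add_le_add e1 (Nat.mul_le_mul_right _ e2)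
        _ = q * (2 * d + 3) * (k * k) := by ring
        _ ≤ C0 * k ^ (d + 4) := Nat.mul_le_mul (by omega) e3
    have h2 : q * (ρ.card + (Y + 2) * k + k * (2 * d + 2)) =
        q * ρ.card + q * ((Y + 2) * k + k * (2 * d + 2)) := by ring
    rw [h2]
    omega

end Pool.Agent.V8H17.AP
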