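import Pool.Agent.V8H17.AP.Der
import Pool.Agent.V8H17.AP.Deg
import Pool.Agent.Helper600R2.Cnt.Main

/-!
No refutation, given a partial partition for which all formulas have shallow trees.
-/

set_option linter.unusedSectionVars false

namespace Pool.Agent.V8H17.AP

open Finset Pool.Agent.Helper600R2 Pool.Agent.Helper600R2.Cnt

/-- the clauses of `F` are weakenings of clauses of the counting principle, the variable `a`
being the set `blk a` -/
def IsCount {α : Type} {N : ℕ} (q : ℕ) (blk : α → Finset (Fin N))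
    (F : Set (Finset (α × Bool))) : Prop :=
  ∀ C ∈ F, (∃ v : Fin N, ∀ B : Finset (Fin N), B.card = q → v ∈ B →
      ∃ a, blk a = B ∧ (a, true) ∈ C) ∨
    (∃ a b : α, blk a ≠ blk b ∧ ¬ Disjoint (blk a) (blk b) ∧ (a, false) ∈ C ∧ (b, false) ∈ C)

section

variable {Vt E : Type} [Fintype Vt] [Fintype E] [DecidableEq Vt] [DecidableEq E]
  {hd tl : E → Vt} {q : ℕ} [NeZero q] {K : Type*} [Field K] {ψ : AddChar (ZMod q) K}
  {p : ℕ} [Fact p.Prime] [CharP K p] {α : Type} {N : ℕ} {blk : α → Finset (Fin N)}

/-- the degree used in the final argument -/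
def ww (k p G d s : ℕ) : ℕ :=
  4 * ((s + 2) * k) + 12 + G * (p * AA k p G d) + AA k p G d

omit [NeZero q] in
lemma tv_var_of_mem {k : ℕ} {ρ y : PS N} (hy : IsPP q y) (hρy : ρ ⊆ y) {B : Finset (Fin N)}
    (hBq : B.card = q) (hB : B ∈ y) (hT : HasT q k (.var B) ρ k)
    (h : ((tr q k ρ (.var B)).eval y).isNone = false) : tv q k ρ y (.var B) = true := by
  cases h1 : (tr q k ρ (.var B)).eval y with
  | none => rw [h1] at h; simp at h
  | some σ =>
    obtain ⟨a1, a2, a3, a4⟩ := tv_spec hy hρy hT h1
    cases hv : tv q k ρ y (.var B)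
    · exfalso
      rw [hv] at a4
      simp only [W, Bool.false_eq_true, if_false] at a4
      obtain ⟨b1, b2 | b2⟩ := a4
      · exact b2 hBq
      · obtain ⟨x, hx, hx'⟩ := Finset.not_disjoint_iff.mp b2
        obtain ⟨C, hC, hxC⟩ := mem_cov.mp hx'
        have := hy.eq_of_mem hB (a2 hC) hx hxC
        subst this
        exact b1 hC
    · rfl

omit [NeZero q] in
lemma mem_of_tv_var {k : ℕ} {ρ y : PS N} (hy : IsPP q y) (hρy : ρ ⊆ y) {B : Finset (Fin N)}
    (hT : HasT q k (.var B) ρ k) (h : tv q k ρ y (.var B) = true) : B ∈ y := by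
  obtain ⟨σ, h1, h2⟩ := tv_iff.mp h
  obtain ⟨a1, a2, a3, a4⟩ := tr_rep hT y hy hρy σ h1
  simp only [W, if_true] at h2
  exact a2 h2

/-- the wide cedent of a point clause -/
lemma point_der {b : Vt → ZMod q} {ρ : PS N} {y : (E → ZMod q) → PS N}
    (hψ : ψ.IsPrimitive) (hqK : (q : K) ≠ 0) (hG : Good hd tl ψ b N ρ y) {k w D : ℕ}
    (hqk : q ≤ k) (v : Fin N) (A : Finset (Fm p α))
    (hA : ∀ B : Finset (Fin N), B.card = q → v ∈ B → ∃ a, blk a = B ∧ Fm.var a ∈ A)
    (hdeg : ∀ φ ∈ A, toK K (fun z => Vz q k ρ blk y z φ) ∈ DC ψ w)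
    (hD : 4 * k + 12 + w ≤ D) :
    Der hd tl ψ b D (fls (K := K) (fun φ z => Vz q k ρ blk y z φ) A) 1 := by
  classical
  have hq : 1 ≤ q := Nat.one_le_iff_ne_zero.mpr (NeZero.ne q)
  let br : PS N → (E → ZMod q) → K := fun π =>
    toK K (fun z => decide (({v} : Finset (Fin N)) ⊆ cov (y z) ∧ mt {v} (y z) = π))
  have hbr : ∀ π, br π ∈ J (ι := E) (α := ZMod q) K 4 := by
    intro π
    have := hG.branch_deg (K := K) ({v} : Finset (Fin N)) π
    rw [card_singleton, mul_one] at this
    exact this
  have hone : (1 : (E → ZMod q) → K) =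
      toK K (fun z => decide (¬ ({v} : Finset (Fin N)) ⊆ cov (y z))) + ∑ π, br π := by
    funext z
    rw [Pi.add_apply, Finset.sum_apply]
    by_cases hX : ({v} : Finset (Fin N)) ⊆ cov (y z)
    · rw [Finset.sum_eq_single (mt {v} (y z))]
      · simp only [br, toK]
        simp [hX]
      · intro π _ hπ
        have : ¬ (mt {v} (y z) = π) := fun h => hπ h.symm
        simp [br, toK, this]
      · intro h; exact absurd (mem_univ _) h
    · rw [Finset.sum_eq_zero]
      · simp [toK, hX]
      · intro π _
        have hX' : v ∉ cov (y z) := by simpa using hX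
        simp [br, toK, hX']
  rw [hone]
  have hsum : ∀ S : Finset (PS N), (∀ π ∈ S,
      Der hd tl ψ b D (fls (K := K) (fun φ z => Vz q k ρ blk y z φ) A) (br π)) →
      Der hd tl ψ b D (fls (K := K) (fun φ z => Vz q k ρ blk y z φ) A) (∑ π ∈ S, br π) := by
    intro S
    induction S using Finset.induction_on with
    | empty => intro _; rw [sum_empty]; exact Der.null (Submodule.zero_mem _)
    | insert a S ha ih =>
      intro h
      rw [sum_insert ha]
      exact Der.add (h a (mem_insert_self _ _)) (ih (fun π hπ => h π (mem_insert_of_mem hπ)))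
  refine Der.add ?_ (hsum univ (fun π _ => ?_))
  · have := hG.notcov_null hψ hqK ({v} : Finset (Fin N))
    rw [card_singleton] at this
    exact Der.null (NF_mono hd tl ψ (by omega) this)
  · by_cases hπ : ∃ B : Finset (Fin N), π = {B} ∧ B.card = q ∧ v ∈ B
    · obtain ⟨B, rfl, hBq, hvB⟩ := hπ
      obtain ⟨a, ha, haA⟩ := hA B hBq hvB
      set fa : (E → ZMod q) → K := toK K (fun z => Vz (p := p) q k ρ blk y z (.var a)) with hfa
      have hT : HasT q k (MF.var B) ρ k := HasT.var hq B ρ k hqk
      set fl : (E → ZMod q) → K :=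
        toK K (fun z => ((tr q k ρ (MF.var B)).eval (y z)).isNone) with hfl
      have hflN : fl ∈ NF hd tl ψ b (4 * k + 8) :=
        hG.tree_fail hψ hqK (tr q k ρ (MF.var B)) k (tr_ht _)
      have hbrD : br {B} ∈ DC ψ 4 := J_le_DC ψ hψ hqK _ (hbr {B})
      have hfaD : fa ∈ DC ψ w := hdeg _ haA
      have heq : br {B} = fa * br {B} + fl * (br {B} * (1 - fa)) := by
        funext z
        simp only [Pi.add_apply, Pi.mul_apply, Pi.sub_apply, Pi.one_apply]
        by_cases h1 : ({v} : Finset (Fin N)) ⊆ cov (y z) ∧ mt {v} (y z) = {B}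
        · have h2 : br {B} z = 1 := by
            simp only [br]
            exact toK_true (decide_eq_true h1)
          rw [h2]
          have hBy : B ∈ y z := by
            have : B ∈ mt {v} (y z) := by rw [h1.2]; exact mem_singleton_self _
            exact mt_subset _ _ this
          cases h3 : ((tr q k ρ (MF.var B)).eval (y z)).isNone
          · have h4 : tv q k ρ (y z) (.var B) = true :=
              tv_var_of_mem (hG.pp z) (hG.ext z) hBq hBy hT h3
            have h5 : fa z = 1 := by
              rw [hfa]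
              apply toK_true
              show tv q k ρ (y z) (.var (blk a)) = true
              rw [ha]
              exact h4
            rw [h5]
            ring
          · have h5 : fl z = 1 := by
              rw [hfl]
              exact toK_true h3
            rw [h5]
            ring
        · have h2 : br {B} z = 0 := by
            simp only [br]
            exact toK_false (decide_eq_false h1)
          rw [h2]
          ring
      rw [heq]
      refine Der.add ?_ ?_
      · exact Der.mul (Der.hyp ⟨.var a, haA, rfl⟩) hfaD hbrD (by omega)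
      · refine Der.null (NF_mono hd tl ψ ?_ (NF_mul hd tl ψ hflN
          (DC_mul ψ hbrD (Submodule.sub_mem _ (one_mem_DC ψ w) hfaD))))
        omega
    · have h1 : br π = 0 := by
        funext z
        simp only [br, Pi.zero_apply]
        apply toK_false
        apply decide_eq_false
        rintro ⟨h2, h3⟩
        apply hπ
        have hv : v ∈ cov (y z) := h2 (mem_singleton_self v)
        obtain ⟨B, hB, hvB⟩ := mem_cov.mp hv
        refine ⟨B, ?_, (hG.pp z).1 B hB, hvB⟩
        rw [← h3]
        ext C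
        rw [mem_mt, mem_singleton]
        constructor
        · rintro ⟨hC, x, hx, hxC⟩
          rw [mem_singleton] at hx
          subst hx
          exact (hG.pp z).eq_of_mem hC hB hxC hvB
        · rintro rfl
          exact ⟨hB, v, mem_singleton_self _, hvB⟩
      rw [h1]
      exact Der.null (Submodule.zero_mem _)

variable (hd tl) (ψ)

theorem no_refutation (hψ : ψ.IsPrimitive) (hqK : (q : K) ≠ 0) (hVt : 3 < Fintype.card Vt)
    (hinc : ∀ v : Vt, (inc hd tl v).card ≤ 4) (c B d k G s : ℕ) (hqk : q ≤ k)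
    (hconn : ∀ u : Vt → ZMod q, dd hd tl u = 0 → (nsupp u).card < Fintype.card Vt → u = 0)
    (hexp : ∀ u : Vt → ZMod q,
      (nsupp (dd hd tl u)).card ≤ 2 * (Dr (c + 2) (ww k p G d s) (B + 1) + ww k p G d s) →
      3 * (nsupp u).card < 2 * Fintype.card Vt → 3 * (nsupp u).card < Fintype.card Vt)
    (ρ : PS N) (hρ : IsPP q ρ)
    (hN : Fintype.card E * (2 * (q - 1)) + q * ρ.card ≤ N)
    {F : Set (Finset (α × Bool))} (hF : IsCount q blk F)
    {T : ℕ} (Γ : Fin T → Finset (Fm p α)) (href : IsRefutation F c B Γ)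
    (hdepth : ∀ φ ∈ allSub Γ, φ.depth ≤ d) (hG : ∀ φ ∈ allSub Γ, φ.rank ≤ G)
    (hfan : ∀ φ ∈ allSub Γ, φ.FanLe s)
    (hroom : q * (ρ.card + (s + 2) * k + k * (2 * d + 2)) ≤ N)
    (hT : ∀ φ ∈ allSub Γ, ∀ l, HasT q k (subst blk (mu l) φ) ρ k) : False := by
  classical
  have hq : 1 ≤ q := Nat.one_le_iff_ne_zero.mpr (NeZero.ne q)
  have hk : 1 ≤ k := hq.trans hqk
  obtain ⟨b, y, hGood⟩ := exists_good hd tl ψ hψ hqK hVt hinc N ρ hρ hN
  have h𝒰 : ClosedFm (allSub Γ) := allSub_closed Γ
  set w : ℕ := ww k p G d s with hw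
  let f : Fm p α → (E → ZMod q) → Bool := fun φ z => Vz q k ρ blk y z φ
  have hc' : ∀ z, ∀ b, tv q k ρ (y z) (.cst b) = b := fun z b => tv_cst (y z) b
  -- trees exist for all values
  have hrdT : ∀ z, ∀ φ ∈ allSub Γ, HasT q k (rd blk (tv q k ρ (y z)) φ) ρ k := by
    intro z φ hφ
    rw [rd_eq_mu (hc' z)]
    exact hT _ hφ _
  have hrdD : ∀ z, ∀ φ ∈ allSub Γ, (rd blk (tv q k ρ (y z)) φ).dep ≤ 2 * d := by
    intro z φ hφ
    rw [rd_eq_mu (hc' z)]
    exact (subst_dep blk _ φ).trans (Nat.mul_le_mul_left 2 (hdepth φ hφ))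
  have hlk : k + 1 ≤ (s + 2) * k := by nlinarith
  -- failure functions
  have hfail1 := fun (φ : Fm p α) (hφ : φ ∈ allSub Γ) =>
    fail_null (hd := hd) (tl := tl) (K := K) (ψ := ψ) (p := p) (blk := blk) (k := k)
      hψ hqK hGood h𝒰 G hG d hdepth φ hφ ((s + 2) * k)
      (fun μ => ckM blk q k ρ μ φ) (fun μ => ckM_ht blk μ φ (hfan φ hφ))
      (fun μ μ' h => ckM_congr blk φ h)
  have hfail2 := fun (φ : Fm p α) (hφ : φ ∈ allSub Γ) (u : Fin N) =>
    fail_null (hd := hd) (tl := tl) (K := K) (ψ := ψ) (p := p) (blk := blk) (k := k)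
      hψ hqK hGood h𝒰 G hG d hdepth φ hφ (k + 1)
      (fun μ => ckA q k ρ u (subst blk μ φ)) (fun μ => ckA_ht u _)
      (fun μ μ' h => by rw [subst_congr blk φ h])
  have hdeg : ∀ φ ∈ allSub Γ, toK K (f φ) ∈ DC ψ w := by
    intro φ hφ
    apply J_le_DC ψ hψ hqK
    refine J_mono ?_ (Vz_deg hGood h𝒰 G hG d φ hφ (hdepth _ hφ))
    rw [hw]; unfold ww
    omega
  have hmem : ∀ i, ∀ φ ∈ Γ i, φ ∈ allSub Γ := fun i φ hφ => mem_allSub Γ i hφ
  obtain ⟨⟨i₀, hi₀⟩, P, Δ, r, hrB, hΔ, hall⟩ := href
  have : Nonempty (Fm p α) := ⟨.or 0 Fin.elim0⟩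
  refine no_empty_cedent (hd := hd) (tl := tl) (K := K) hψ b hVt w (c + 2) B hconn hexp Γ Δ
    (fun i => (hΔ i).1) (fun i => (hΔ i).2) f
    (fun i φ hφ => hdeg φ (hmem i φ hφ)) r hrB ?_ i₀ hi₀
  intro i
  rcases hall i with hax | ⟨hinf, htree⟩
  · -- axioms
    obtain ⟨C, hCF, hC⟩ := hax
    rcases hC with hC | ⟨t, φs, hor, hC⟩
    · rcases hF C hCF with ⟨v, hv⟩ | ⟨a, a', hne, hdis, ha, ha'⟩
      · left
        refine point_der (k := k) (w := w) hψ hqK hGood hqk v (Γ i) ?_ ?_ ?_
        · intro B hBq hvB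
          obtain ⟨a, haB, haC⟩ := hv B hBq hvB
          refine ⟨a, haB, ?_⟩
          have := hC _ haC
          simpa [lit] using this
        · intro φ hφ
          exact hdeg φ (hmem i φ hφ)
        · have h1 : 4 * k + 12 ≤ w := by
            rw [hw]; unfold ww
            have : k ≤ (s + 2) * k := Nat.le_mul_of_pos_left k (by omega)
            omega
          nlinarith
      · right
        have hna : Fm.neg (.var a) ∈ Γ i := by simpa [lit] using hC _ ha
        have hna' : Fm.neg (.var a') ∈ Γ i := by simpa [lit] using hC _ ha'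
        have hva : ∀ a : α, Fm.neg (.var a) ∈ Γ i → ∀ z,
            ((ckM blk q k ρ (mu (lz q k ρ blk y z)) (Fm.neg (.var a) : Fm p α)).eval
              (y z)).isNone = false → f (Fm.neg (.var a)) z = false → blk a ∈ y z := by
          intro a hna z h1 h2
          have hs1 := hmem i _ hna
          have h3 := resp_of_ck (hGood.pp z) (hGood.ext z) h𝒰 hfan hdepth hroom (hrdT z)
            (Fm.neg (.var a)) hs1 h1
          have h4 : tv q k ρ (y z) (.var (blk a)) = true := by
            have h5 : f (Fm.neg (.var a)) z = !(f (.var a) z) := h3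
            rw [h2] at h5
            have h6 : f (.var a) z = true := by simpa using h5.symm
            exact h6
          exact mem_of_tv_var (hGood.pp z) (hGood.ext z) (HasT.var hq _ ρ k hqk) h4
        refine ⟨∅, by simp, by simp, fun _ => ⟨by simp, by simp, by simp⟩, ?_⟩
        intro σ _
        refine ⟨{Fm.neg (.var a), Fm.neg (.var a')}, ?_, ?_, ?_⟩
        · intro φ hφ
          rw [mem_insert, mem_singleton] at hφ
          rcases hφ with rfl | rfl
          · exact hna
          · exact hna'
        · exact card_le_two.trans (by omega)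
        · refine ⟨{fun z => ((ckM blk q k ρ (mu (lz q k ρ blk y z))
              (Fm.neg (.var a) : Fm p α)).eval (y z)).isNone,
            fun z => ((ckM blk q k ρ (mu (lz q k ρ blk y z))
              (Fm.neg (.var a') : Fm p α)).eval (y z)).isNone},
            card_le_two.trans (by omega), ?_, ?_⟩
          · intro g hg
            rw [mem_insert, mem_singleton] at hg
            rcases hg with rfl | rfl
            · obtain ⟨g1, g2⟩ := hfail1 _ (hmem i _ hna)
              refine ⟨DC_mono ψ ?_ g2, NF_mono hd tl ψ ?_ g1⟩ <;>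
              · rw [hw]; unfold ww; omega
            · obtain ⟨g1, g2⟩ := hfail1 _ (hmem i _ hna')
              refine ⟨DC_mono ψ ?_ g2, NF_mono hd tl ψ ?_ g1⟩ <;>
              · rw [hw]; unfold ww; omega
          · intro z _ hQ
            by_contra hcon
            push Not at hcon
            have c1 : f (Fm.neg (.var a)) z = false := by
              simpa using hcon (Fm.neg (.var a)) (by simp)
            have c2 : f (Fm.neg (.var a')) z = false := by
              simpa using hcon (Fm.neg (.var a')) (by simp)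
            have m1 := hva a hna z (hQ _ (mem_insert_self _ _)) c1
            have m2 := hva a' hna' z (hQ _ (mem_insert_of_mem (mem_singleton_self _))) c2
            exact hdis ((hGood.pp z).2 _ m1 _ m2 hne)
    · right
      have hors := hmem i _ hor
      -- the forcing point
      obtain ⟨u, hu⟩ : ∃ u : Fin N, ∀ z, ∀ B : Finset (Fin N), B.card = q → u ∈ B →
          ∀ π, IsPP q π → B ∈ π →
          ∃ j, W q k (rd blk (tv q k ρ (y z)) (φs j)) true π := by
        rcases hF C hCF with ⟨v, hv⟩ | ⟨a, a', hne, hdis, ha, ha'⟩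
        · refine ⟨v, ?_⟩
          intro z B hBq hvB π _ hBπ
          obtain ⟨a, haB, haC⟩ := hv B hBq hvB
          obtain ⟨j, hj⟩ := hC _ haC
          refine ⟨j, ?_⟩
          rw [hj]
          simp only [lit, if_true, rd, W]
          rw [haB]
          exact hBπ
        · obtain ⟨u, hue, huf⟩ := Finset.not_disjoint_iff.mp hdis
          refine ⟨u, ?_⟩
          intro z B hBq huB π hπ hBπ
          have key : ∀ g : α, u ∈ blk g → B ≠ blk g →
              W q k (MF.neg (MF.var (blk g))) true π := by
            intro g hug hne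
            simp only [W, Bool.not_true, Bool.false_eq_true, if_false]
            refine ⟨fun hg => hne (hπ.eq_of_mem hBπ hg huB hug), Or.inr ?_⟩
            exact Finset.not_disjoint_iff.mpr ⟨u, hug, mem_cov.mpr ⟨B, hBπ, huB⟩⟩
          by_cases hBe : B = blk a
          · have hBf : B ≠ blk a' := fun h => hne (hBe.symm.trans h)
            obtain ⟨j, hj⟩ := hC _ ha'
            refine ⟨j, ?_⟩
            rw [hj]
            simp only [lit, Bool.false_eq_true, if_false, rd]
            exact key a' huf hBf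
          · obtain ⟨j, hj⟩ := hC _ ha
            refine ⟨j, ?_⟩
            rw [hj]
            simp only [lit, Bool.false_eq_true, if_false, rd]
            exact key a hue hBe
      refine ⟨∅, by simp, by simp, fun _ => ⟨by simp, by simp, by simp⟩, ?_⟩
      intro σ _
      refine ⟨{Fm.or t φs}, by simpa using hor, by simp, ?_⟩
      refine ⟨{fun z => ((ckA q k ρ u (subst blk (mu (lz q k ρ blk y z))
        (Fm.or t φs : Fm p α))).eval (y z)).isNone}, by simp, ?_, ?_⟩
      · intro g hg
        rw [mem_singleton] at hg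
        subst hg
        obtain ⟨g1, g2⟩ := hfail2 _ hors u
        have h1 : 4 * (k + 1) + 8 ≤ 4 * ((s + 2) * k) + 12 := by omega
        refine ⟨DC_mono ψ ?_ g2, NF_mono hd tl ψ ?_ g1⟩ <;>
        · rw [hw]; unfold ww; omega
      · intro z _ hQ
        refine ⟨Fm.or t φs, mem_singleton_self _, ?_⟩
        have h1 := hQ _ (mem_singleton_self _)
        have h2 : subst blk (mu (lz q k ρ blk y z)) (Fm.or t φs : Fm p α) =
            .or t (fun j => rd blk (tv q k ρ (y z)) (φs j)) := by
          have := rd_eq_mu (blk := blk) (hc' z) (Fm.or t φs : Fm p α)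
          rw [rd] at this
          exact this.symm
        rw [h2] at h1
        have h3 := hrdT z _ hors
        rw [rd] at h3
        refine check_ax hk (hGood.pp z) (hGood.ext z) ?_ h3 u (hu z) h1
        refine (Nat.mul_le_mul_left q ?_).trans hroom
        have h4 := hrdD z _ hors
        rw [rd] at h4
        have h5 := Nat.mul_le_mul_left k (h4.trans (Nat.le_add_right _ 2))
        have h6 : 2 * k ≤ (s + 2) * k := Nat.mul_le_mul_right k (by omega)
        omega
  · right
    obtain ⟨hP, hlt, hinf⟩ := hinf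
    refine ⟨P i, by omega, hlt, htree, ?_⟩
    intro σ hσ
    obtain ⟨J, hJ, hJc, Q, hQU, hQc, himp⟩ := hinf σ hσ
    refine ⟨J, hJ, by omega, Q.image (fun χ z => ((ckM blk q k ρ (mu (lz q k ρ blk y z))
      χ).eval (y z)).isNone), card_image_le.trans (by omega), ?_, ?_⟩
    · intro g hg
      obtain ⟨χ, hχ, rfl⟩ := mem_image.mp hg
      obtain ⟨g1, g2⟩ := hfail1 χ (hQU hχ)
      refine ⟨DC_mono ψ ?_ g2, NF_mono hd tl ψ ?_ g1⟩ <;>
      · rw [hw]; unfold ww; omega
    · intro z hPz hQz
      apply himp (Vz q k ρ blk y z) (Vz_respMod z)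
      · intro χ hχ
        exact resp_of_ck (hGood.pp z) (hGood.ext z) h𝒰 hfan hdepth hroom (hrdT z) χ
          (hQU hχ) (hQz _ (mem_image_of_mem _ hχ))
      · exact hPz

end

end Pool.Agent.V8H17.AP
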