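import Pool.Agent.V8H17.AP.Defs
import Pool.Agent.Helper600R2.Cnt.Levels

/-!
Replacing the `md` subformulas by constants and the `fn` connectives by disjunctive normal forms.
-/

set_option linter.unusedSectionVars false

namespace Pool.Agent.V8H17.AP

open Finset Pool.Agent.Helper600R2.Cnt

section dnf

variable {N : ℕ}

/-- enumeration of the truth assignments -/
noncomputable def bits (t : ℕ) : Fin (Fintype.card (Fin t → Bool)) ≃ (Fin t → Bool) :=
  (Fintype.equivFin _).symm

/-- the literals saying that the formula `ψs i` does not have the value `x i` -/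
def lits {t : ℕ} (x : Fin t → Bool) (ψs : Fin t → MF N) : Fin t → MF N :=
  fun i => if x i = true then .neg (ψs i) else ψs i

/-- the formula saying that all `ψs i` have the values `x i` -/
def tm {t : ℕ} (x : Fin t → Bool) (ψs : Fin t → MF N) : MF N := .neg (.or t (lits x ψs))

/-- the disjunctive normal form -/
noncomputable def dnf (t : ℕ) (F : (Fin t → Bool) → Bool) (ψs : Fin t → MF N) : MF N :=
  .or (Fintype.card (Fin t → Bool))
    (fun a => if F (bits t a) = true then tm (bits t a) ψs else .cst false)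

lemma lits_dep {t : ℕ} (x : Fin t → Bool) (ψs : Fin t → MF N) (i : Fin t) :
    (lits x ψs i).dep = (ψs i).dep := by
  unfold lits
  split_ifs <;> rfl

lemma or_lits_dep {t : ℕ} (x : Fin t → Bool) (ψs : Fin t → MF N) :
    (MF.or t (lits x ψs)).dep = 1 + univ.sup (fun j => (ψs j).dep) := by
  simp only [MF.dep, lits_dep]

lemma tm_dep {t : ℕ} (x : Fin t → Bool) (ψs : Fin t → MF N) :
    (tm x ψs).dep = 1 + univ.sup (fun j => (ψs j).dep) := by
  rw [tm, MF.dep, or_lits_dep]

lemma dnf_dep (t : ℕ) (F : (Fin t → Bool) → Bool) (ψs : Fin t → MF N) :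
    (dnf t F ψs).dep ≤ 2 + univ.sup (fun j => (ψs j).dep) := by
  unfold dnf
  rw [MF.dep]
  have : univ.sup (fun a => (if F (bits t a) = true then tm (bits t a) ψs
      else MF.cst false).dep) ≤ 1 + univ.sup (fun j => (ψs j).dep) := by
    apply Finset.sup_le
    intro a _
    split_ifs
    · rw [tm_dep]
    · simp [MF.dep]
  omega

end dnf

section

variable {p : ℕ} {α : Type} {N : ℕ} (blk : α → Finset (Fin N))

/-- replacing the maximal `md` subformulas by constants -/
noncomputable def subst (μ : Fm p α → Bool) : Fm p α → MF N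
  | .var a => .var (blk a)
  | .neg φ => .neg (subst μ φ)
  | .or t φs => .or t (fun j => subst μ (φs j))
  | .md i t φs => .cst (μ (.md i t φs))
  | .fn t F φs => dnf t F (fun j => subst μ (φs j))

lemma subst_congr {μ μ' : Fm p α → Bool} (φ : Fm p α) (h : ∀ χ ∈ φ.tops, μ χ = μ' χ) :
    subst blk μ φ = subst blk μ' φ := by
  classical
  induction φ with
  | var a => rfl
  | neg φ ih => simp only [subst]; rw [ih h]
  | or t φs ih =>
    simp only [subst]
    congr 1
    funext j
    apply ih j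
    intro χ hχ
    apply h
    simp only [Fm.tops, mem_biUnion, mem_univ, true_and]
    exact ⟨j, hχ⟩
  | md i t φs _ =>
    simp only [subst]
    rw [h _ (by simp [Fm.tops])]
  | fn t F φs ih =>
    simp only [subst]
    congr 1
    funext j
    apply ih j
    intro χ hχ
    apply h
    simp only [Fm.tops, mem_biUnion, mem_univ, true_and]
    exact ⟨j, hχ⟩

lemma subst_dep (μ : Fm p α → Bool) (φ : Fm p α) : (subst blk μ φ).dep ≤ 2 * φ.depth := by
  induction φ with
  | var a => simp [subst, MF.dep]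
  | neg φ ih => simp only [subst, MF.dep, Fm.depth]; omega
  | or t φs ih =>
    simp only [subst, MF.dep, Fm.depth]
    have : univ.sup (fun j => (subst blk μ (φs j)).dep) ≤
        2 * univ.sup (fun j => (φs j).depth) := by
      apply Finset.sup_le
      intro j hj
      refine (ih j).trans (Nat.mul_le_mul_left 2 ?_)
      exact Finset.le_sup (f := fun j => (φs j).depth) hj
    omega
  | md i t φs _ => simp [subst, MF.dep]
  | fn t F φs ih =>
    simp only [subst, Fm.depth]
    refine (dnf_dep _ _ _).trans ?_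
    have : univ.sup (fun j => (subst blk μ (φs j)).dep) ≤
        2 * univ.sup (fun j => (φs j).depth) := by
      apply Finset.sup_le
      intro j hj
      refine (ih j).trans (Nat.mul_le_mul_left 2 ?_)
      exact Finset.le_sup (f := fun j => (φs j).depth) hj
    omega

lemma self_mem_sub (φ : Fm p α) : φ ∈ φ.sub := by
  cases φ <;> simp [Fm.sub]

/-- closed under immediate subformulas -/
structure ClosedFm (𝒰 : Finset (Fm p α)) : Prop where
  neg : ∀ φ, Fm.neg φ ∈ 𝒰 → φ ∈ 𝒰
  or : ∀ t (φs : Fin t → Fm p α), Fm.or t φs ∈ 𝒰 → ∀ j, φs j ∈ 𝒰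
  md : ∀ i t (φs : Fin t → Fm p α), Fm.md i t φs ∈ 𝒰 → ∀ j, φs j ∈ 𝒰
  fn : ∀ t F (φs : Fin t → Fm p α), Fm.fn t F φs ∈ 𝒰 → ∀ j, φs j ∈ 𝒰

lemma sub_closed (ψ : Fm p α) : ClosedFm ψ.sub := by
  classical
  induction ψ with
  | var a =>
    refine ⟨?_, ?_, ?_, ?_⟩ <;> intros <;> simp_all [Fm.sub]
  | neg φ ih =>
    refine ⟨?_, ?_, ?_, ?_⟩
    · intro χ hχ
      simp only [Fm.sub, mem_insert] at hχ ⊢
      rcases hχ with h | h
      · rw [Fm.neg.injEq] at h
        rw [h]
        exact Or.inr (self_mem_sub φ)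
      · exact Or.inr (ih.neg χ h)
    · intro t φs h j
      simp only [Fm.sub, mem_insert] at h ⊢
      rcases h with h | h
      · cases h
      · exact Or.inr (ih.or t φs h j)
    · intro i t φs h j
      simp only [Fm.sub, mem_insert] at h ⊢
      rcases h with h | h
      · cases h
      · exact Or.inr (ih.md i t φs h j)
    · intro i t φs h j
      simp only [Fm.sub, mem_insert] at h ⊢
      rcases h with h | h
      · cases h
      · exact Or.inr (ih.fn i t φs h j)
  | or t φs ih =>
    refine ⟨?_, ?_, ?_, ?_⟩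
    · intro χ hχ
      simp only [Fm.sub, mem_insert, mem_biUnion, mem_univ, true_and] at hχ ⊢
      rcases hχ with h | ⟨l, h⟩
      · cases h
      · exact Or.inr ⟨l, (ih l).neg χ h⟩
    · intro t' φs' h j
      simp only [Fm.sub, mem_insert, mem_biUnion, mem_univ, true_and] at h ⊢
      rcases h with h | ⟨l, h⟩
      · cases h
        exact Or.inr ⟨j, self_mem_sub _⟩
      · exact Or.inr ⟨l, (ih l).or t' φs' h j⟩
    · intro i t' φs' h j
      simp only [Fm.sub, mem_insert, mem_biUnion, mem_univ, true_and] at h ⊢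
      rcases h with h | ⟨l, h⟩
      · cases h
      · exact Or.inr ⟨l, (ih l).md i t' φs' h j⟩
    · intro i t' φs' h j
      simp only [Fm.sub, mem_insert, mem_biUnion, mem_univ, true_and] at h ⊢
      rcases h with h | ⟨l, h⟩
      · cases h
      · exact Or.inr ⟨l, (ih l).fn i t' φs' h j⟩
  | md i t φs ih =>
    refine ⟨?_, ?_, ?_, ?_⟩
    · intro χ hχ
      simp only [Fm.sub, mem_insert, mem_biUnion, mem_univ, true_and] at hχ ⊢
      rcases hχ with h | ⟨l, h⟩
      · cases h
      · exact Or.inr ⟨l, (ih l).neg χ h⟩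
    · intro t' φs' h j
      simp only [Fm.sub, mem_insert, mem_biUnion, mem_univ, true_and] at h ⊢
      rcases h with h | ⟨l, h⟩
      · cases h
      · exact Or.inr ⟨l, (ih l).or t' φs' h j⟩
    · intro i' t' φs' h j
      simp only [Fm.sub, mem_insert, mem_biUnion, mem_univ, true_and] at h ⊢
      rcases h with h | ⟨l, h⟩
      · cases h
        exact Or.inr ⟨j, self_mem_sub _⟩
      · exact Or.inr ⟨l, (ih l).md i' t' φs' h j⟩
    · intro i' t' φs' h j
      simp only [Fm.sub, mem_insert, mem_biUnion, mem_univ, true_and] at h ⊢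
      rcases h with h | ⟨l, h⟩
      · cases h
      · exact Or.inr ⟨l, (ih l).fn i' t' φs' h j⟩
  | fn t F φs ih =>
    refine ⟨?_, ?_, ?_, ?_⟩
    · intro χ hχ
      simp only [Fm.sub, mem_insert, mem_biUnion, mem_univ, true_and] at hχ ⊢
      rcases hχ with h | ⟨l, h⟩
      · cases h
      · exact Or.inr ⟨l, (ih l).neg χ h⟩
    · intro t' φs' h j
      simp only [Fm.sub, mem_insert, mem_biUnion, mem_univ, true_and] at h ⊢
      rcases h with h | ⟨l, h⟩
      · cases h
      · exact Or.inr ⟨l, (ih l).or t' φs' h j⟩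
    · intro i' t' φs' h j
      simp only [Fm.sub, mem_insert, mem_biUnion, mem_univ, true_and] at h ⊢
      rcases h with h | ⟨l, h⟩
      · cases h
      · exact Or.inr ⟨l, (ih l).md i' t' φs' h j⟩
    · intro i' t' φs' h j
      simp only [Fm.sub, mem_insert, mem_biUnion, mem_univ, true_and] at h ⊢
      rcases h with h | ⟨l, h⟩
      · cases h
        exact Or.inr ⟨j, self_mem_sub _⟩
      · exact Or.inr ⟨l, (ih l).fn i' t' φs' h j⟩

lemma allSub_closed {T : ℕ} (Γ : Fin T → Finset (Fm p α)) : ClosedFm (allSub Γ) := by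
  classical
  refine ⟨?_, ?_, ?_, ?_⟩
  · intro χ hχ
    simp only [allSub, mem_biUnion, mem_univ, true_and] at hχ ⊢
    obtain ⟨i, φ, hφ, hi⟩ := hχ
    exact ⟨i, φ, hφ, (sub_closed φ).neg χ hi⟩
  · intro t φs hχ j
    simp only [allSub, mem_biUnion, mem_univ, true_and] at hχ ⊢
    obtain ⟨i, φ, hφ, hi⟩ := hχ
    exact ⟨i, φ, hφ, (sub_closed φ).or t φs hi j⟩
  · intro i' t φs hχ j
    simp only [allSub, mem_biUnion, mem_univ, true_and] at hχ ⊢
    obtain ⟨i, φ, hφ, hi⟩ := hχ
    exact ⟨i, φ, hφ, (sub_closed φ).md i' t φs hi j⟩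
  · intro t F φs hχ j
    simp only [allSub, mem_biUnion, mem_univ, true_and] at hχ ⊢
    obtain ⟨i, φ, hφ, hi⟩ := hχ
    exact ⟨i, φ, hφ, (sub_closed φ).fn t F φs hi j⟩

lemma mem_allSub {T : ℕ} (Γ : Fin T → Finset (Fm p α)) (i : Fin T) {φ : Fm p α}
    (h : φ ∈ Γ i) : φ ∈ allSub Γ := by
  classical
  simp only [allSub, mem_biUnion, mem_univ, true_and]
  exact ⟨i, φ, h, self_mem_sub _⟩

open Classical in
/-- the auxiliary formulas of a formula `fn t F φs` -/
noncomputable def auxF (μ : Fm p α → Bool) : Fm p α → Finset (MF N)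
  | .fn t _ φs => insert (.cst false) (univ.image (fun x => tm x (fun j => subst blk μ (φs j))) ∪
      (univ.image (fun x => MF.or t (lits x (fun j => subst blk μ (φs j)))) ∪
        univ.image (fun j => MF.neg (subst blk μ (φs j)))))
  | _ => ∅

open Classical in
/-- the formula obtained by the substitution, and auxiliary formulas -/
noncomputable def auxM (μ : Fm p α → Bool) (φ : Fm p α) : Finset (MF N) :=
  insert (subst blk μ φ) (auxF blk μ φ)

lemma subst_mem_auxM (μ : Fm p α → Bool) (φ : Fm p α) : subst blk μ φ ∈ auxM blk μ φ := by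
  classical
  exact mem_insert_self _ _

lemma auxM_congr {μ μ' : Fm p α → Bool} (φ : Fm p α) (h : ∀ χ ∈ φ.tops, μ χ = μ' χ) :
    auxM blk μ φ = auxM blk μ' φ := by
  classical
  unfold auxM
  rw [subst_congr blk φ h]
  congr 1
  cases φ with
  | var a => rfl
  | neg φ => rfl
  | or t φs => rfl
  | md i t φs => rfl
  | fn t F φs =>
    have h1 : ∀ j, subst blk μ (φs j) = subst blk μ' (φs j) := by
      intro j
      apply subst_congr
      intro χ hχ
      apply h
      simp only [Fm.tops, mem_biUnion, mem_univ, true_and]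
      exact ⟨j, hχ⟩
    simp only [auxF, h1]

lemma auxM_card (μ : Fm p α → Bool) (φ : Fm p α) {s : ℕ} (hs : φ.FanLe s) :
    (auxM (N := N) blk μ φ).card ≤ 5 * 2 ^ s := by
  classical
  have h0 : 1 ≤ 2 ^ s := Nat.one_le_two_pow
  unfold auxM
  refine (card_insert_le _ _).trans ?_
  cases φ with
  | var a => simp only [auxF, card_empty]; omega
  | neg φ => simp only [auxF, card_empty]; omega
  | or t φs => simp only [auxF, card_empty]; omega
  | md i t φs => simp only [auxF, card_empty]; omega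
  | fn t F φs =>
    simp only [Fm.FanLe] at hs
    have h1 : (univ.image (fun x : Fin t → Bool => tm x (fun j => subst blk μ (φs j)))).card ≤
        2 ^ t := by
      refine card_image_le.trans ?_
      rw [card_univ, Fintype.card_fun, Fintype.card_bool, Fintype.card_fin]
    have h2 : (univ.image (fun x : Fin t → Bool =>
        MF.or t (lits x (fun j => subst blk μ (φs j))))).card ≤ 2 ^ t := by
      refine card_image_le.trans ?_
      rw [card_univ, Fintype.card_fun, Fintype.card_bool, Fintype.card_fin]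
    have h3 : (univ.image (fun j => MF.neg (subst blk μ (φs j)))).card ≤ t := by
      refine card_image_le.trans ?_
      rw [card_univ, Fintype.card_fin]
    have h4 : 2 ^ t ≤ 2 ^ s := Nat.pow_le_pow_right (by norm_num) hs
    have h5 : t < 2 ^ t := Nat.lt_two_pow_self
    simp only [auxF]
    have h6 := card_insert_le (MF.cst false : MF N)
      (univ.image (fun x => tm x (fun j => subst blk μ (φs j))) ∪
      (univ.image (fun x => MF.or t (lits x (fun j => subst blk μ (φs j)))) ∪
        univ.image (fun j => MF.neg (subst blk μ (φs j)))))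
    have h7 := card_union_le (univ.image (fun x => tm x (fun j => subst blk μ (φs j))))
      (univ.image (fun x => MF.or t (lits x (fun j => subst blk μ (φs j)))) ∪
        univ.image (fun j => MF.neg (subst blk μ (φs j))))
    have h8 := card_union_le
      (univ.image (fun x => MF.or t (lits x (fun j => subst blk μ (φs j)))))
      (univ.image (fun j => MF.neg (subst blk μ (φs j))))
    omega

lemma auxM_dep (μ : Fm p α → Bool) (φ : Fm p α) : ∀ ψ ∈ auxM (N := N) blk μ φ,
    ψ.dep ≤ 2 * φ.depth := by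
  classical
  intro ψ hψ
  rw [auxM, mem_insert] at hψ
  rcases hψ with rfl | hψ
  · exact subst_dep blk μ φ
  · cases φ with
    | var a => simp [auxF] at hψ
    | neg φ => simp [auxF] at hψ
    | or t φs => simp [auxF] at hψ
    | md i t φs => simp [auxF] at hψ
    | fn t F φs =>
      have h1 : univ.sup (fun j => (subst blk μ (φs j)).dep) ≤
          2 * univ.sup (fun j => (φs j).depth) := by
        apply Finset.sup_le
        intro j hj
        refine (subst_dep blk μ (φs j)).trans (Nat.mul_le_mul_left 2 ?_)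
        exact Finset.le_sup (f := fun j => (φs j).depth) hj
      simp only [Fm.depth]
      simp only [auxF, mem_insert, mem_union, mem_image, mem_univ, true_and] at hψ
      rcases hψ with rfl | ⟨x, rfl⟩ | ⟨x, rfl⟩ | ⟨j, rfl⟩
      · simp [MF.dep]
      · rw [tm_dep]; omega
      · rw [or_lits_dep]; omega
      · rw [MF.dep]
        have : (subst blk μ (φs j)).dep ≤ _ :=
          Finset.le_sup (f := fun j => (subst blk μ (φs j)).dep) (mem_univ j)
        omega

/-- truth values of the `md` formulas given by a linear functional -/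
noncomputable def mu (l : (Fm p α →₀ ZMod p) →ₗ[ZMod p] ZMod p) : Fm p α → Bool
  | .md i t φs => decide (l (Fm.form (.md i t φs)) = i)
  | _ => false

/-- the linear functional of a valuation -/
noncomputable def lV (V : Fm p α → Bool) : (Fm p α →₀ ZMod p) →ₗ[ZMod p] ZMod p :=
  Finsupp.linearCombination (ZMod p) (fun φ => if V φ = true then (1 : ZMod p) else 0)

lemma lV_form (V : Fm p α → Bool) (i : ZMod p) (t : ℕ) (φs : Fin t → Fm p α) :
    lV V (Fm.form (.md i t φs)) = ∑ j, if V (φs j) = true then (1 : ZMod p) else 0 := by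
  simp only [Fm.form, map_sum, lV, Finsupp.linearCombination_single, one_smul]

lemma mu_lV {V : Fm p α → Bool} (hV : RespMod V) (χ : Fm p α)
    (hχ : ∃ i t, ∃ φs : Fin t → Fm p α, χ = .md i t φs) : mu (lV V) χ = V χ := by
  obtain ⟨i, t, φs, rfl⟩ := hχ
  rw [hV i t φs, mu, lV_form]

lemma tops_spec (φ : Fm p α) : ∀ χ ∈ φ.tops,
    (∃ i t, ∃ φs : Fin t → Fm p α, χ = .md i t φs) ∧ χ.depth ≤ φ.depth := by
  classical
  induction φ with
  | var a => intro χ hχ; simp [Fm.tops] at hχ
  | neg φ ih =>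
    intro χ hχ
    obtain ⟨h1, h2⟩ := ih χ hχ
    refine ⟨h1, ?_⟩
    simp only [Fm.depth]
    omega
  | or t φs ih =>
    intro χ hχ
    simp only [Fm.tops, mem_biUnion, mem_univ, true_and] at hχ
    obtain ⟨j, hj⟩ := hχ
    obtain ⟨h1, h2⟩ := ih j χ hj
    refine ⟨h1, ?_⟩
    simp only [Fm.depth]
    have := Finset.le_sup (f := fun j => (φs j).depth) (mem_univ j)
    omega
  | md i t φs _ =>
    intro χ hχ
    simp only [Fm.tops, mem_singleton] at hχ
    subst hχ
    exact ⟨⟨i, t, φs, rfl⟩, le_rfl⟩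
  | fn t F φs ih =>
    intro χ hχ
    simp only [Fm.tops, mem_biUnion, mem_univ, true_and] at hχ
    obtain ⟨j, hj⟩ := hχ
    obtain ⟨h1, h2⟩ := ih j χ hj
    refine ⟨h1, ?_⟩
    simp only [Fm.depth]
    have := Finset.le_sup (f := fun j => (φs j).depth) (mem_univ j)
    omega

lemma tops_mem {𝒰 : Finset (Fm p α)} (h𝒰 : ClosedFm 𝒰) (φ : Fm p α) :
    φ ∈ 𝒰 → ∀ χ ∈ φ.tops, χ ∈ 𝒰 := by
  classical
  induction φ with
  | var a => intro _ χ hχ; simp [Fm.tops] at hχ
  | neg φ ih => intro hφ χ hχ; exact ih (h𝒰.neg φ hφ) χ hχ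
  | or t φs ih =>
    intro hφ χ hχ
    simp only [Fm.tops, mem_biUnion, mem_univ, true_and] at hχ
    obtain ⟨j, hj⟩ := hχ
    exact ih j (h𝒰.or t φs hφ j) χ hj
  | md i t φs _ =>
    intro hφ χ hχ
    simp only [Fm.tops, mem_singleton] at hχ
    subst hχ
    exact hφ
  | fn t F φs ih =>
    intro hφ χ hχ
    simp only [Fm.tops, mem_biUnion, mem_univ, true_and] at hχ
    obtain ⟨j, hj⟩ := hχ
    exact ih j (h𝒰.fn t F φs hφ j) χ hj

/-- the space spanned by the forms of the maximal `md` subformulas -/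
noncomputable abbrev Fm.spc (φ : Fm p α) : Submodule (ZMod p) (Fm p α →₀ ZMod p) :=
  Submodule.span (ZMod p) (Fm.form '' (φ.tops : Set (Fm p α)))

lemma form_mem_spc {φ χ : Fm p α} (h : χ ∈ φ.tops) : χ.form ∈ φ.spc :=
  Submodule.subset_span ⟨χ, h, rfl⟩

lemma mu_congr {φ : Fm p α} {l l' : (Fm p α →₀ ZMod p) →ₗ[ZMod p] ZMod p}
    (h : ∀ v ∈ φ.spc, l v = l' v) : ∀ χ ∈ φ.tops, mu l χ = mu l' χ := by
  intro χ hχ
  obtain ⟨⟨i, t, φs, rfl⟩, _⟩ := tops_spec φ χ hχ
  simp only [mu, h _ (form_mem_spc hχ)]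

variable [Fact p.Prime]

instance spc_finite (φ : Fm p α) : Module.Finite (ZMod p) φ.spc := by
  apply Module.Finite.span_of_finite
  exact Set.Finite.image _ (Finset.finite_toSet _)

/-- the family of all formulas obtained from `𝒰` -/
lemma exists_fam (𝒰 : Finset (Fm p α)) (G s : ℕ) (hG : ∀ φ ∈ 𝒰, φ.rank ≤ G)
    (hs : ∀ φ ∈ 𝒰, φ.FanLe s) : ∃ 𝓜 : Finset (MF N),
    (∀ φ ∈ 𝒰, ∀ l, auxM blk (mu l) φ ⊆ 𝓜) ∧
    (∀ ψ ∈ 𝓜, ∃ φ ∈ 𝒰, ∃ l, ψ ∈ auxM blk (mu l) φ) ∧
    𝓜.card ≤ 𝒰.card * (p ^ G * (5 * 2 ^ s)) := by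
  classical
  have hex : ∀ (φ : Fm p α) (m : Module.Dual (ZMod p) φ.spc),
      ∃ l : (Fm p α →₀ ZMod p) →ₗ[ZMod p] ZMod p, ∀ v : φ.spc, l v = m v := by
    intro φ m
    obtain ⟨l, hl⟩ := LinearMap.exists_extend m
    exact ⟨l, fun v => LinearMap.congr_fun hl v⟩
  choose ext hext using hex
  have hfin : ∀ φ : Fm p α, Finite (Module.Dual (ZMod p) φ.spc) := by
    intro φ
    exact Module.finite_of_finite (ZMod p)
  let inst : ∀ φ : Fm p α, Fintype (Module.Dual (ZMod p) φ.spc) := fun φ => Fintype.ofFinite _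
  have hcard : ∀ φ : Fm p α, (@Finset.univ _ (inst φ)).card = p ^ φ.rank := by
    intro φ
    have h1 : Nat.card (Module.Dual (ZMod p) φ.spc) =
        Nat.card (ZMod p) ^ Module.finrank (ZMod p) (Module.Dual (ZMod p) φ.spc) :=
      Module.natCard_eq_pow_finrank
    rw [Subspace.dual_finrank_eq, Nat.card_zmod] at h1
    have h2 : (@Finset.univ _ (inst φ)).card = Nat.card (Module.Dual (ZMod p) φ.spc) := by
      rw [@Nat.card_eq_fintype_card _ (inst φ)]
      rfl
    rw [h2, h1]
    rfl
  refine ⟨𝒰.biUnion (fun φ => (@Finset.univ _ (inst φ)).biUnion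
    (fun m => auxM blk (mu (ext φ m)) φ)), ?_, ?_, ?_⟩
  · intro φ hφ l ψ hψ
    rw [mem_biUnion]
    refine ⟨φ, hφ, ?_⟩
    rw [mem_biUnion]
    refine ⟨l.comp φ.spc.subtype, @Finset.mem_univ _ (inst φ) _, ?_⟩
    have h1 : auxM (N := N) blk (mu (ext φ (l.comp φ.spc.subtype))) φ = auxM blk (mu l) φ := by
      apply auxM_congr
      apply mu_congr
      intro v hv
      exact hext φ _ ⟨v, hv⟩
    rw [h1]
    exact hψ
  · intro ψ hψ
    rw [mem_biUnion] at hψ
    obtain ⟨φ, hφ, hψ⟩ := hψ
    rw [mem_biUnion] at hψ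
    obtain ⟨m, _, hψ⟩ := hψ
    exact ⟨φ, hφ, _, hψ⟩
  · refine card_biUnion_le.trans ?_
    calc ∑ φ ∈ 𝒰, ((@Finset.univ _ (inst φ)).biUnion
          (fun m => auxM (N := N) blk (mu (ext φ m)) φ)).card
        ≤ ∑ _φ ∈ 𝒰, p ^ G * (5 * 2 ^ s) := by
          refine Finset.sum_le_sum (fun φ hφ => ?_)
          refine card_biUnion_le.trans ?_
          calc ∑ m ∈ (@Finset.univ _ (inst φ)), (auxM (N := N) blk (mu (ext φ m)) φ).card
              ≤ ∑ _m ∈ (@Finset.univ _ (inst φ)), 5 * 2 ^ s :=
                Finset.sum_le_sum (fun m _ => auxM_card blk _ φ (hs φ hφ))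
            _ = p ^ φ.rank * (5 * 2 ^ s) := by
                rw [Finset.sum_const, hcard, smul_eq_mul]
            _ ≤ _ := Nat.mul_le_mul_right _
                (Nat.pow_le_pow_right (Fact.out : p.Prime).one_le (hG φ hφ))
      _ = _ := by rw [Finset.sum_const, smul_eq_mul]

omit [Fact p.Prime] in
lemma fam_closed {𝒰 : Finset (Fm p α)} (h𝒰 : ClosedFm 𝒰) {𝓜 : Finset (MF N)}
    (h1 : ∀ φ ∈ 𝒰, ∀ l, auxM blk (mu l) φ ⊆ 𝓜)
    (h2 : ∀ ψ ∈ 𝓜, ∃ φ ∈ 𝒰, ∃ l, ψ ∈ auxM blk (mu l) φ) : Closed 𝓜 := by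
  classical
  have hsub : ∀ φ ∈ 𝒰, ∀ l, subst blk (mu l) φ ∈ 𝓜 := fun φ hφ l =>
    h1 φ hφ l (subst_mem_auxM blk _ φ)
  constructor
  · intro χ hχ
    obtain ⟨φ, hφ, l, h⟩ := h2 _ hχ
    have hall := h1 φ hφ l
    rw [auxM, mem_insert] at h
    cases φ with
    | var a => simp [subst, auxF] at h
    | neg φ' =>
      simp only [subst, auxF, notMem_empty, or_false, MF.neg.injEq] at h
      rw [h]
      exact hsub φ' (h𝒰.neg φ' hφ) l
    | or t φs => simp [subst, auxF] at h
    | md i t φs => simp [subst, auxF] at h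
    | fn t F φs =>
      simp only [subst, auxF, mem_insert, mem_union, mem_image, mem_univ, true_and] at h
      rcases h with h | h | ⟨x, h⟩ | ⟨x, h⟩ | ⟨j, h⟩
      · simp [dnf] at h
      · cases h
      · simp only [tm, MF.neg.injEq] at h
        apply hall
        rw [← h]
        simp only [auxM, auxF, mem_insert, mem_union, mem_image, mem_univ, true_and]
        exact Or.inr (Or.inr (Or.inr (Or.inl ⟨x, rfl⟩)))
      · cases h
      · rw [MF.neg.injEq] at h
        rw [← h]
        exact hsub _ (h𝒰.fn t F φs hφ j) l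
  · intro t χs hχ j
    obtain ⟨φ, hφ, l, h⟩ := h2 _ hχ
    have hall := h1 φ hφ l
    rw [auxM, mem_insert] at h
    cases φ with
    | var a => simp [subst, auxF] at h
    | neg φ' => simp [subst, auxF] at h
    | or t' φs =>
      simp only [subst, auxF, notMem_empty, or_false] at h
      cases h
      exact hsub _ (h𝒰.or t φs hφ j) l
    | md i t φs => simp [subst, auxF] at h
    | fn t' F φs =>
      simp only [subst, auxF, mem_insert, mem_union, mem_image, mem_univ, true_and] at h
      rcases h with h | h | ⟨x, h⟩ | ⟨x, h⟩ | ⟨j', h⟩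
      · unfold dnf at h
        cases h
        apply hall
        simp only [auxM, auxF, mem_insert, mem_union, mem_image, mem_univ, true_and]
        split_ifs with hF
        · exact Or.inr (Or.inr (Or.inl ⟨_, rfl⟩))
        · exact Or.inr (Or.inl rfl)
      · cases h
      · cases h
      · cases h
        unfold lits
        split_ifs with hx
        · apply hall
          simp only [auxM, auxF, mem_insert, mem_union, mem_image, mem_univ, true_and]
          exact Or.inr (Or.inr (Or.inr (Or.inr ⟨j, rfl⟩)))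
        · exact hsub _ (h𝒰.fn _ _ _ hφ j) l
      · cases h

end

end Pool.Agent.V8H17.AP
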